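import Mathlib

set_option autoImplicit false

/-! A dense set of integers is dense in a short block. -/

namespace Pool.Agent.H563.RC

open Finset

theorem block (ε : ℝ) (hε : 0 < ε) (hε1 : ε ≤ 1) : ∃ ζ : ℝ, 0 < ζ ∧ ∀ W X L N : ℕ, 1 ≤ W → 64 * W / ε ≤ X → W ≤ X →
    L = 2 * X / W + 1 → N = 2 * L + 1 → ∀ S : Finset ℕ, (∀ m ∈ S, 2 * m < L) → ε * (X / W) < S.card →
    ∃ B : Finset ℕ, ∃ α D : ℕ, B ⊆ S ∧ (∀ m ∈ B, α ≤ m ∧ m < α + D) ∧ 3 * D ≤ α ∧ α + 4 * D ≤ L ∧ ζ * N ≤ B.card := by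
  obtain ⟨Q₀, hQ₀⟩ : ∃ Q₀ : ℕ, Q₀ = ⌈192 / ε⌉₊ + 1 := ⟨_, rfl⟩
  have hQ₀1 : 1 ≤ Q₀ := by omega
  have hQ₀r : (0 : ℝ) < Q₀ := by exact_mod_cast hQ₀1
  have hQ₀ε : 192 ≤ Q₀ * ε := by
    have h1 : 192 / ε ≤ Q₀ := by
      rw [hQ₀]; push_cast
      have := Nat.le_ceil (192 / ε)
      linarith
    rw [div_le_iff₀ hε] at h1
    exact h1
  obtain ⟨ζ, hζ⟩ : ∃ ζ : ℝ, ζ = ε / (24 * Q₀) := ⟨_, rfl⟩
  have hζ0 : 0 < ζ := by rw [hζ]; positivity
  refine ⟨ζ, hζ0, ?_⟩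
  intro W X L N hW hXε hWX hL hN S hSle hcon
  have hW0 : (0 : ℝ) < W := by exact_mod_cast hW
  have hX0 : (0 : ℝ) < X := by exact_mod_cast (by omega : 0 < X)
  have hXWr : (W : ℝ) ≤ X := by exact_mod_cast hWX
  -- sizes of `L` and `N`
  have hL1 : 2 * (X : ℝ) / W ≤ L := by
    rw [div_le_iff₀ hW0]
    have h1 : 2 * X < W * L := by rw [hL]; exact Nat.lt_mul_div_succ _ (by omega)
    have h2 : ((2 * X : ℕ) : ℝ) ≤ ((W * L : ℕ) : ℝ) := by exact_mod_cast h1.le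
    push_cast at h2
    linarith
  have hL2 : (L : ℝ) ≤ 3 * (X / W) := by
    have h1 : ((2 * X / W : ℕ) : ℝ) ≤ ((2 * X : ℕ) : ℝ) / W := Nat.cast_div_le
    have h2 : (1 : ℝ) ≤ X / W := by rw [le_div_iff₀ hW0]; linarith
    rw [hL]
    push_cast at h1 ⊢
    have e : 2 * (X : ℝ) / W = 2 * (X / W) := by ring
    linarith
  have hNL : (N : ℝ) ≤ 3 * L := by
    have : 1 ≤ L := by rw [hL]; exact Nat.le_add_left 1 _
    exact_mod_cast (by omega : N ≤ 3 * L)
  have hLε : 64 ≤ ε * L := by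
    have h1 : 64 * W / ε ≤ X := hXε
    rw [div_le_iff₀ hε] at h1
    have h2 : 64 ≤ ε * (X / W) := by
      rw [mul_div_assoc', le_div_iff₀ hW0]; linarith
    have h3 : (X : ℝ) / W ≤ L := by
      refine le_trans ?_ hL1
      apply div_le_div_of_nonneg_right _ hW0.le
      linarith
    exact h2.trans (mul_le_mul_of_nonneg_left h3 hε.le)
  obtain ⟨D, hD⟩ : ∃ D : ℕ, D = ⌊ε * L / 32⌋₊ := ⟨_, rfl⟩
  have hD1 : (D : ℝ) ≤ ε * L / 32 := by rw [hD]; exact Nat.floor_le (by positivity)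
  have hD2 : ε * L / 64 ≤ D := by
    have := Nat.lt_floor_add_one (ε * L / 32)
    rw [← hD] at this
    linarith
  have hDpos : 0 < D := by
    have : (0 : ℝ) < D := by linarith
    exact_mod_cast this
  have hNQD : N ≤ Q₀ * D := by
    have h1 : (N : ℝ) ≤ Q₀ * D := by
      refine hNL.trans ?_
      have h2 : Q₀ * (ε * L / 64) ≤ Q₀ * (D : ℝ) := mul_le_mul_of_nonneg_left hD2 hQ₀r.le
      have h3 : 192 * (L : ℝ) ≤ Q₀ * ε * L := mul_le_mul_of_nonneg_right hQ₀ε (Nat.cast_nonneg L)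
      linarith
    exact_mod_cast h1
  have h32 : 32 * D ≤ L := by
    have h1 : (32 : ℝ) * D ≤ L := by
      have h2 : ε * (L : ℝ) ≤ 1 * L := mul_le_mul_of_nonneg_right hε1 (Nat.cast_nonneg L)
      linarith
    exact_mod_cast h1
  obtain ⟨S', hS'⟩ : ∃ S' : Finset ℕ, S' = S.filter (fun m => 3 * D ≤ m) := ⟨_, rfl⟩
  have hS'card : ε / 2 * (X / W) ≤ S'.card := by
    have h1 : S ⊆ S' ∪ range (3 * D) := by
      intro m hm
      rw [mem_union, mem_range, hS', mem_filter]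
      by_cases h : 3 * D ≤ m
      · exact Or.inl ⟨hm, h⟩
      · exact Or.inr (by omega)
    have h2 := (card_le_card h1).trans (card_union_le _ _)
    rw [card_range] at h2
    have h3 : (S.card : ℝ) ≤ S'.card + 3 * D := by exact_mod_cast h2
    have h4 : 3 * (D : ℝ) ≤ ε / 2 * (X / W) := by
      have h5 : ε * (L : ℝ) ≤ ε * (3 * (X / W)) := mul_le_mul_of_nonneg_left hL2 hε.le
      have h6 : 0 ≤ ε * ((X : ℝ) / W) := by positivity
      linarith
    linarith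
  have hmaps : ∀ m ∈ S', m / D ∈ range Q₀ := by
    intro m hm
    rw [mem_range, Nat.div_lt_iff_lt_mul hDpos]
    rw [hS', mem_filter] at hm
    have := hSle m hm.1
    omega
  have hpig : ∃ j ∈ range Q₀, ζ * N ≤ ((S'.filter (fun m => m / D = j)).card : ℝ) := by
    by_contra hc
    push Not at hc
    have h1 : (S'.card : ℝ) = ∑ j ∈ range Q₀, ((S'.filter (fun m => m / D = j)).card : ℝ) := by
      have := card_eq_sum_card_fiberwise hmaps
      exact_mod_cast this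
    have h2 : (S'.card : ℝ) < Q₀ * (ζ * N) := by
      rw [h1]
      calc ∑ j ∈ range Q₀, ((S'.filter (fun m => m / D = j)).card : ℝ) < ∑ _j ∈ range Q₀, ζ * N := by
            apply sum_lt_sum_of_nonempty
            · rw [nonempty_range_iff]; omega
            · exact hc
        _ = Q₀ * (ζ * N) := by rw [sum_const, card_range, nsmul_eq_mul]
    have h3 : Q₀ * (ζ * N) = ε / 24 * N := by rw [hζ]; field_simp
    have h4 : ε / 24 * N ≤ ε / 24 * (3 * (3 * (X / W))) := by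
      apply mul_le_mul_of_nonneg_left _ (by positivity)
      exact hNL.trans (mul_le_mul_of_nonneg_left hL2 (by norm_num))
    have h6 : 0 < ε * ((X : ℝ) / W) := by positivity
    linarith
  obtain ⟨j, hj, hjc⟩ := hpig
  obtain ⟨B, hB⟩ : ∃ B : Finset ℕ, B = S'.filter (fun m => m / D = j) := ⟨_, rfl⟩
  rw [← hB] at hjc
  have hBprop : ∀ m ∈ B, m ∈ S ∧ 3 * D ≤ m ∧ j * D ≤ m ∧ m < j * D + D := by
    intro m hm
    rw [hB, mem_filter, hS', mem_filter] at hm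
    refine ⟨hm.1.1, hm.1.2, ?_, ?_⟩
    · rw [← hm.2]; exact Nat.div_mul_le_self m D
    · rw [← hm.2]
      have := Nat.lt_div_mul_add hDpos (a := m)
      exact this
  have hBne : B.Nonempty := by
    rw [← card_pos]
    have h1 : (0 : ℝ) < N := by
      have : 0 < N := by omega
      exact_mod_cast this
    have h2 : (0 : ℝ) < B.card := lt_of_lt_of_le (by positivity) hjc
    exact_mod_cast h2
  obtain ⟨m₀, hm₀⟩ := hBne
  have hj3 : 3 * D ≤ j * D := by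
    obtain ⟨_, h2, _, h4⟩ := hBprop m₀ hm₀
    have h5 : 3 * D < (j + 1) * D := by rw [Nat.add_mul, one_mul]; omega
    have h6 : 3 < j + 1 := Nat.lt_of_mul_lt_mul_right h5
    exact Nat.mul_le_mul_right D (by omega)
  have hjL : j * D + 4 * D ≤ L := by
    obtain ⟨h1, h2, h3, h4⟩ := hBprop m₀ hm₀
    have := hSle m₀ h1
    omega
  exact ⟨B, j * D, D, fun m hm => (hBprop m hm).1, fun m hm => (hBprop m hm).2.2, hj3, hjL, hjc⟩

end Pool.Agent.H563.RC
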