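import Mathlib
import Pool.Agent.H563.RG.Comb

set_option autoImplicit false

/-! Sums over the vertices of a graph with weights on the edges: replacing one edge. -/

namespace Pool.Agent.H563.RC

open Finset
open Pool.Agent.H373R2.NB (hat parseval sum_chi norm_chi chi_conj)
open Pool.Agent.H563.RG

variable {N : ℕ} [NeZero N]

lemma amgm3 (a b c : ℝ) (ha : 0 ≤ a) (hb : 0 ≤ b) (hc : 0 ≤ c) : a * b * c ≤ (a ^ 3 + b ^ 3 + c ^ 3) / 3 := by
  have h : a ^ 3 + b ^ 3 + c ^ 3 - 3 * (a * b * c) = (a + b + c) * ((a - b) ^ 2 + (b - c) ^ 2 + (c - a) ^ 2) / 2 := by ring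
  have h2 : 0 ≤ (a + b + c) * ((a - b) ^ 2 + (b - c) ^ 2 + (c - a) ^ 2) / 2 := by positivity
  linarith

/-- the bilinear form in terms of the transforms -/
lemma bil_eq (A B h : ZMod N → ℝ) : (N : ℂ) * ((∑ u, ∑ v, A u * B v * h (u + v) : ℝ) : ℂ) =
    ∑ ξ : ZMod N, hat h ξ * (hat A (-ξ) * hat B (-ξ)) := by
  have h1 : ∀ u v : ZMod N, (N : ℂ) * ((A u * B v * h (u + v) : ℝ) : ℂ) =
      ∑ ξ : ZMod N, hat h ξ * (((A u : ℂ) * ZMod.stdAddChar (-ξ * u)) * ((B v : ℂ) * ZMod.stdAddChar (-ξ * v))) := by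
    intro u v
    have h2 := inv_hat h (u + v)
    have h3 : (N : ℂ) * ((A u * B v * h (u + v) : ℝ) : ℂ) = (A u : ℂ) * B v * ((N : ℂ) * (h (u + v) : ℂ)) := by
      push_cast; ring
    rw [h3, h2, mul_sum]
    apply sum_congr rfl
    intro ξ _
    have h4 : -(ξ * (u + v)) = -ξ * u + -ξ * v := by ring
    rw [h4, AddChar.map_add_eq_mul]
    ring
  calc (N : ℂ) * ((∑ u, ∑ v, A u * B v * h (u + v) : ℝ) : ℂ) = ∑ u, ∑ v, (N : ℂ) * ((A u * B v * h (u + v) : ℝ) : ℂ) := by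
        rw [Complex.ofReal_sum, mul_sum]
        apply sum_congr rfl
        intro u _
        rw [Complex.ofReal_sum, mul_sum]
    _ = ∑ u, ∑ v, ∑ ξ : ZMod N, hat h ξ * (((A u : ℂ) * ZMod.stdAddChar (-ξ * u)) * ((B v : ℂ) * ZMod.stdAddChar (-ξ * v))) :=
        sum_congr rfl fun u _ => sum_congr rfl fun v _ => h1 u v
    _ = ∑ ξ : ZMod N, ∑ u, ∑ v, hat h ξ * (((A u : ℂ) * ZMod.stdAddChar (-ξ * u)) * ((B v : ℂ) * ZMod.stdAddChar (-ξ * v))) := by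
        have h5 : ∀ u : ZMod N, ∑ v, ∑ ξ : ZMod N, hat h ξ * (((A u : ℂ) * ZMod.stdAddChar (-ξ * u)) * ((B v : ℂ) * ZMod.stdAddChar (-ξ * v))) =
            ∑ ξ : ZMod N, ∑ v, hat h ξ * (((A u : ℂ) * ZMod.stdAddChar (-ξ * u)) * ((B v : ℂ) * ZMod.stdAddChar (-ξ * v))) := fun u => sum_comm
        rw [sum_congr rfl fun u _ => h5 u, sum_comm]
    _ = _ := by
        apply sum_congr rfl
        intro ξ _
        unfold hat
        rw [sum_mul_sum, mul_sum]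
        apply sum_congr rfl
        intro u _
        rw [mul_sum]

/-- the bilinear estimate -/
lemma bilin (A B h : ZMod N → ℝ) (C μ : ℝ) (hC : 0 ≤ C) (hμ : 0 < μ)
    (hA : ∑ ξ, ‖hat A ξ‖ ^ 3 ≤ C * (N : ℝ) ^ 3) (hB : ∑ ξ, ‖hat B ξ‖ ^ 3 ≤ C * (N : ℝ) ^ 3)
    (hh : ∀ ξ, ‖hat h ξ‖ ≤ μ ^ 9 * N) (h1 : ∀ x, |h x| ≤ 1) :
    |∑ u, ∑ v, A u * B v * h (u + v)| ≤ μ ^ 3 * (C + 1) * (N : ℝ) ^ 2 := by
  have hN : 0 < N := Nat.pos_of_ne_zero (NeZero.ne N)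
  have hN0 : (0 : ℝ) < N := by exact_mod_cast hN
  have e1 := congrArg norm (bil_eq A B h)
  rw [norm_mul, Complex.norm_natCast, Complex.norm_real, Real.norm_eq_abs] at e1
  have h2 : ∀ u : ZMod N → ℝ, ∑ ξ, ‖hat u (-ξ)‖ ^ 3 = ∑ ξ, ‖hat u ξ‖ ^ 3 := by
    intro u
    exact Fintype.sum_equiv (Equiv.neg _) _ _ (fun ξ => rfl)
  have h3 : ∑ ξ, ‖hat h ξ‖ ^ 3 ≤ μ ^ 9 * (N : ℝ) ^ 3 := by
    have h4 : ∑ ξ, ‖hat h ξ‖ ^ 2 ≤ N * N := by
      rw [parseval]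
      apply mul_le_mul_of_nonneg_left _ hN0.le
      calc ∑ m, h m ^ 2 ≤ ∑ _m : ZMod N, (1 : ℝ) := by
            apply sum_le_sum
            intro m _
            have := h1 m
            rw [← sq_abs]
            have h0 := abs_nonneg (h m)
            nlinarith
        _ = N := by rw [sum_const, card_univ, ZMod.card, nsmul_eq_mul, mul_one]
    calc ∑ ξ, ‖hat h ξ‖ ^ 3 ≤ ∑ ξ, (μ ^ 9 * N) * ‖hat h ξ‖ ^ 2 := by
          apply sum_le_sum
          intro ξ _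
          have h5 : ‖hat h ξ‖ ^ 3 = ‖hat h ξ‖ * ‖hat h ξ‖ ^ 2 := by ring
          rw [h5]
          exact mul_le_mul_of_nonneg_right (hh ξ) (by positivity)
      _ = μ ^ 9 * N * ∑ ξ, ‖hat h ξ‖ ^ 2 := by rw [mul_sum]
      _ ≤ μ ^ 9 * N * (N * N) := mul_le_mul_of_nonneg_left h4 (by positivity)
      _ = _ := by ring
  have h6 : N * |∑ u, ∑ v, A u * B v * h (u + v)| ≤ N * (μ ^ 3 * (C + 1) * (N : ℝ) ^ 2) := by
    rw [e1]
    refine (norm_sum_le _ _).trans ?_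
    have h7 : ∀ ξ : ZMod N, ‖hat h ξ * (hat A (-ξ) * hat B (-ξ))‖ ≤
        (μ ^ 3 * ‖hat A (-ξ)‖ ^ 3 + μ ^ 3 * ‖hat B (-ξ)‖ ^ 3 + (μ ^ 6)⁻¹ * ‖hat h ξ‖ ^ 3) / 3 := by
      intro ξ
      rw [norm_mul, norm_mul]
      have h8 := amgm3 (μ * ‖hat A (-ξ)‖) (μ * ‖hat B (-ξ)‖) ((μ ^ 2)⁻¹ * ‖hat h ξ‖) (by positivity) (by positivity) (by positivity)
      have h9 : ‖hat h ξ‖ * (‖hat A (-ξ)‖ * ‖hat B (-ξ)‖) = (μ * ‖hat A (-ξ)‖) * (μ * ‖hat B (-ξ)‖) * ((μ ^ 2)⁻¹ * ‖hat h ξ‖) := by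
        field_simp
      rw [h9]
      refine h8.trans (le_of_eq ?_)
      rw [mul_pow, mul_pow, mul_pow, inv_pow, ← pow_mul]
    refine (sum_le_sum fun ξ _ => h7 ξ).trans ?_
    rw [← sum_div, sum_add_distrib, sum_add_distrib, ← mul_sum, ← mul_sum, ← mul_sum, h2, h2]
    have a1 : μ ^ 3 * ∑ ξ, ‖hat A ξ‖ ^ 3 ≤ μ ^ 3 * (C * (N : ℝ) ^ 3) := mul_le_mul_of_nonneg_left hA (by positivity)
    have a2 : μ ^ 3 * ∑ ξ, ‖hat B ξ‖ ^ 3 ≤ μ ^ 3 * (C * (N : ℝ) ^ 3) := mul_le_mul_of_nonneg_left hB (by positivity)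
    have a3 : (μ ^ 6)⁻¹ * ∑ ξ, ‖hat h ξ‖ ^ 3 ≤ (μ ^ 6)⁻¹ * (μ ^ 9 * (N : ℝ) ^ 3) := mul_le_mul_of_nonneg_left h3 (by positivity)
    have a4 : (μ ^ 6)⁻¹ * (μ ^ 9 * (N : ℝ) ^ 3) = μ ^ 3 * (N : ℝ) ^ 3 := by field_simp
    have a5 : 0 ≤ μ ^ 3 * (C * (N : ℝ) ^ 3) := by positivity
    have a6 : 0 ≤ μ ^ 3 * (N : ℝ) ^ 3 := by positivity
    have a7 : (N : ℝ) * (μ ^ 3 * (C + 1) * (N : ℝ) ^ 2) = μ ^ 3 * (C * (N : ℝ) ^ 3) + μ ^ 3 * (N : ℝ) ^ 3 := by ring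
    rw [a7]
    rw [a4] at a3
    linarith
  exact le_of_mul_le_mul_left h6 hN0

/-- summation over one coordinate -/
lemma upd_sum {G : Type} [Fintype G] [DecidableEq G] (k : ℕ) (i : Fin k) (F : (Fin k → G) → ℝ) :
    (Fintype.card G : ℝ) * ∑ x : Fin k → G, F x = ∑ x : Fin k → G, ∑ u : G, F (Function.update x i u) := by
  classical
  have h1 : (Fintype.card G : ℝ) * ∑ x : Fin k → G, F x = ∑ y : (Fin k → G) × G, F y.1 := by
    rw [Fintype.sum_prod_type, mul_sum]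
    apply sum_congr rfl
    intro d _
    simp only
    rw [sum_const, nsmul_eq_mul, card_univ]
  rw [h1, ← Fintype.sum_prod_type' (f := fun x u => F (Function.update x i u))]
  symm
  refine sum_nbij' (fun y => (Function.update y.1 i y.2, y.1 i)) (fun y => (Function.update y.1 i y.2, y.1 i))
    (fun _ _ => mem_univ _) (fun _ _ => mem_univ _) ?_ ?_ ?_
  · intro y _
    simp
  · intro y _
    simp
  · intro y _
    rfl

/-- products of sums -/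
lemma prod_sum_univ {G : Type} [Fintype G] [DecidableEq G] (k : ℕ) (F : Fin k → G → ℝ) :
    ∑ x : Fin k → G, ∏ i, F i (x i) = ∏ i, ∑ u : G, F i u := by
  rw [Finset.prod_univ_sum, Fintype.piFinset_univ]

lemma prod_le_pow (k : ℕ) (F : Fin k → ZMod N → ℝ) (hF : ∀ i, 0 ≤ ∑ u, F i u ∧ ∑ u, F i u ≤ 2 * N) :
    ∑ x : Fin k → ZMod N, ∏ i, F i (x i) ≤ (2 * (N : ℝ)) ^ k := by
  rw [prod_sum_univ]
  calc ∏ i : Fin k, ∑ u, F i u ≤ ∏ _i : Fin k, (2 * (N : ℝ)) := prod_le_prod (fun i _ => (hF i).1) (fun i _ => (hF i).2)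
    _ = _ := by rw [prod_const, card_univ, Fintype.card_fin]

/-- one edge -/
theorem edge_step (k : ℕ) (F : ZMod N → ℝ) (hF0 : ∀ x, 0 ≤ F x) (hF : ∑ x, F x ≤ 2 * N) (C μ : ℝ) (hC : 0 ≤ C) (hμ : 0 < μ)
    (hres : ∀ u : ZMod N → ℝ, (∀ x, 0 ≤ u x ∧ u x ≤ F x) → ∑ ξ, ‖hat u ξ‖ ^ 3 ≤ C * (N : ℝ) ^ 3)
    (a b : Fin k) (hab : a ≠ b) (Qa Qb : (Fin k → ZMod N) → ℝ) (hQa : ∀ x, 0 ≤ Qa x ∧ Qa x ≤ 1) (hQb : ∀ x, 0 ≤ Qb x ∧ Qb x ≤ 1)
    (hQa' : ∀ x v, Qa (Function.update x b v) = Qa x) (hQb' : ∀ x u, Qb (Function.update x a u) = Qb x)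
    (h : ZMod N → ℝ) (hh : ∀ ξ, ‖hat h ξ‖ ≤ μ ^ 9 * N) (h1 : ∀ x, |h x| ≤ 1) :
    |∑ x : Fin k → ZMod N, (∏ i, F (x i)) * (Qa x * Qb x) * h (x a + x b)| ≤ 2 ^ k * (μ ^ 3 * (C + 1)) * (N : ℝ) ^ k := by
  classical
  have hN : 0 < N := Nat.pos_of_ne_zero (NeZero.ne N)
  have hN0 : (0 : ℝ) < N := by exact_mod_cast hN
  obtain ⟨Φ, hΦ⟩ : ∃ Φ : (Fin k → ZMod N) → ℝ, Φ = fun x => (∏ i, F (x i)) * (Qa x * Qb x) * h (x a + x b) := ⟨_, rfl⟩
  have e1 : (N : ℝ) * (N * ∑ x : Fin k → ZMod N, Φ x) =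
      ∑ x : Fin k → ZMod N, ∑ u, ∑ v, Φ (Function.update (Function.update x a u) b v) := by
    have h2 := upd_sum k b Φ
    have h3 := upd_sum k a (fun x => ∑ v, Φ (Function.update x b v))
    rw [ZMod.card] at h2 h3
    rw [h2, h3]
  -- the rest
  obtain ⟨F', hF'⟩ : ∃ F' : Fin k → ZMod N → ℝ, F' = fun i u => if i = a ∨ i = b then 1 else F u := ⟨_, rfl⟩
  have e2 : ∀ x : Fin k → ZMod N, ∀ u v, ∏ i, F ((Function.update (Function.update x a u) b v) i) = F u * F v * ∏ i, F' i (x i) := by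
    intro x u v
    have h3 : ∀ i, F ((Function.update (Function.update x a u) b v) i) = (if i = a then F u else 1) * (if i = b then F v else 1) * F' i (x i) := by
      intro i
      rw [hF']
      simp only
      by_cases hb : i = b
      · subst hb
        rw [Function.update_self, if_neg (Ne.symm hab), if_pos rfl, if_pos (Or.inr rfl)]; ring
      · rw [Function.update_of_ne hb]
        by_cases ha : i = a
        · subst ha
          rw [Function.update_self, if_pos rfl, if_neg hb, if_pos (Or.inl rfl)]; ring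
        · rw [Function.update_of_ne ha, if_neg ha, if_neg hb, if_neg (by tauto)]; ring
    rw [prod_congr rfl fun i _ => h3 i, prod_mul_distrib, prod_mul_distrib, prod_ite_eq' univ a, prod_ite_eq' univ b,
      if_pos (mem_univ _), if_pos (mem_univ _)]
  have e3 : ∀ x : Fin k → ZMod N, |∑ u, ∑ v, Φ (Function.update (Function.update x a u) b v)| ≤
      (∏ i, F' i (x i)) * (μ ^ 3 * (C + 1) * (N : ℝ) ^ 2) := by
    intro x
    have hF'0 : 0 ≤ ∏ i, F' i (x i) := by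
      apply prod_nonneg
      intro i _
      rw [hF']
      simp only
      split_ifs
      · norm_num
      · exact hF0 _
    obtain ⟨A, hA⟩ : ∃ A : ZMod N → ℝ, A = fun u => F u * Qa (Function.update x a u) := ⟨_, rfl⟩
    obtain ⟨B, hB⟩ : ∃ B : ZMod N → ℝ, B = fun v => F v * Qb (Function.update x b v) := ⟨_, rfl⟩
    have h3 : ∀ u v, Φ (Function.update (Function.update x a u) b v) = (∏ i, F' i (x i)) * (A u * B v * h (u + v)) := by
      intro u v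
      rw [hΦ]
      simp only
      rw [e2, hQa', Function.update_comm hab, hQb', hA, hB]
      rw [Function.update_self, Function.update_of_ne (Ne.symm hab), Function.update_self]
      ring
    have h4 : ∑ u, ∑ v, Φ (Function.update (Function.update x a u) b v) = (∏ i, F' i (x i)) * ∑ u, ∑ v, A u * B v * h (u + v) := by
      rw [mul_sum]
      apply sum_congr rfl
      intro u _
      rw [mul_sum]
      exact sum_congr rfl fun v _ => h3 u v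
    rw [h4, abs_mul, abs_of_nonneg hF'0]
    apply mul_le_mul_of_nonneg_left _ hF'0
    apply bilin A B h C μ hC hμ _ _ hh h1
    · apply hres
      intro u
      rw [hA]
      exact ⟨mul_nonneg (hF0 u) (hQa _).1, mul_le_of_le_one_right (hF0 u) (hQa _).2⟩
    · apply hres
      intro u
      rw [hB]
      exact ⟨mul_nonneg (hF0 u) (hQb _).1, mul_le_of_le_one_right (hF0 u) (hQb _).2⟩
  have e4 : (N : ℝ) * (N * |∑ x : Fin k → ZMod N, Φ x|) ≤ (2 * (N : ℝ)) ^ k * (μ ^ 3 * (C + 1) * (N : ℝ) ^ 2) := by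
    have h5 : (N : ℝ) * (N * |∑ x : Fin k → ZMod N, Φ x|) = |(N : ℝ) * (N * ∑ x : Fin k → ZMod N, Φ x)| := by
      rw [abs_mul, abs_mul, abs_of_pos hN0]
    rw [h5, e1]
    refine (abs_sum_le_sum_abs _ _).trans ?_
    refine (sum_le_sum fun x _ => e3 x).trans ?_
    rw [← sum_mul]
    apply mul_le_mul_of_nonneg_right _ (by positivity)
    apply prod_le_pow
    intro i
    rw [hF']
    simp only
    by_cases hi : i = a ∨ i = b
    · rw [sum_congr rfl fun u _ => if_pos hi, sum_const, card_univ, ZMod.card, nsmul_eq_mul, mul_one]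
      exact ⟨hN0.le, by linarith⟩
    · rw [sum_congr rfl fun u _ => if_neg hi]
      exact ⟨sum_nonneg fun u _ => hF0 u, hF⟩
  have e5 : (N : ℝ) ^ 2 * |∑ x : Fin k → ZMod N, Φ x| ≤ (N : ℝ) ^ 2 * (2 ^ k * (μ ^ 3 * (C + 1)) * (N : ℝ) ^ k) := by
    calc (N : ℝ) ^ 2 * |∑ x : Fin k → ZMod N, Φ x| = (N : ℝ) * (N * |∑ x : Fin k → ZMod N, Φ x|) := by ring
      _ ≤ (2 * (N : ℝ)) ^ k * (μ ^ 3 * (C + 1) * (N : ℝ) ^ 2) := e4
      _ = _ := by rw [mul_pow]; ring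
  have e6 := le_of_mul_le_mul_left e5 (by positivity)
  rw [hΦ] at e6
  exact e6

end Pool.Agent.H563.RC
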