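import Mathlib
import Pool.Agent.H563.RC.Edge

set_option autoImplicit false

/-! Transference: sums over the vertices of a graph with weights on the edges. -/

namespace Pool.Agent.H563.RC

open Finset
open Pool.Agent.H373R2.NB (hat parseval sum_chi norm_chi chi_conj)
open Pool.Agent.H563.RG

variable {N : ℕ} [NeZero N]

/-- the weighted number of homomorphisms -/
noncomputable def TT (k : ℕ) (E : Finset (Fin k × Fin k)) (F : Fin k → ZMod N → ℝ) (G : Fin k × Fin k → ZMod N → ℝ) : ℝ :=
  ∑ x : Fin k → ZMod N, (∏ i, F i (x i)) * ∏ e ∈ E, G e (x e.1 + x e.2)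

theorem edges (k : ℕ) (E : Finset (Fin k × Fin k)) (hE : ∀ e ∈ E, e.1 < e.2)
    (F : ZMod N → ℝ) (hF0 : ∀ x, 0 ≤ F x) (hF : ∑ x, F x ≤ 2 * N) (C μ : ℝ) (hC : 0 ≤ C) (hμ : 0 < μ)
    (hres : ∀ u : ZMod N → ℝ, (∀ x, 0 ≤ u x ∧ u x ≤ F x) → ∑ ξ, ‖hat u ξ‖ ^ 3 ≤ C * (N : ℝ) ^ 3)
    (g g₁ : ZMod N → ℝ) (hg : ∀ x, 0 ≤ g x ∧ g x ≤ 1) (hg₁ : ∀ x, 0 ≤ g₁ x ∧ g₁ x ≤ 1)
    (hh : ∀ ξ, ‖hat (fun x => g x - g₁ x) ξ‖ ≤ μ ^ 9 * N) :
    |TT k E (fun _ => F) (fun _ => g) - TT k E (fun _ => F) (fun _ => g₁)| ≤ E.card * (2 ^ k * (μ ^ 3 * (C + 1)) * (N : ℝ) ^ k) := by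
  classical
  obtain ⟨β, hβ⟩ : ∃ β, β = 2 ^ k * (μ ^ 3 * (C + 1)) * (N : ℝ) ^ k := ⟨_, rfl⟩
  rw [← hβ]
  have key : ∀ S : Finset (Fin k × Fin k), S ⊆ E →
      |TT k E (fun _ => F) (fun _ => g) - TT k E (fun _ => F) (fun e => if e ∈ S then g₁ else g)| ≤ S.card * β := by
    intro S
    induction S using Finset.induction_on with
    | empty =>
      intro _
      have e : (fun e : Fin k × Fin k => if e ∈ (∅ : Finset (Fin k × Fin k)) then g₁ else g) = fun _ => g := by
        funext e
        rw [if_neg (notMem_empty _)]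
      rw [e, sub_self, abs_zero, card_empty, Nat.cast_zero, zero_mul]
    | insert e₀ S he₀ ih =>
      intro hSE
      have h0 : e₀ ∈ E := hSE (mem_insert_self _ _)
      have ih' := ih ((subset_insert _ _).trans hSE)
      have hab : e₀.1 < e₀.2 := hE e₀ h0
      obtain ⟨G, hG⟩ : ∃ G : Fin k × Fin k → ZMod N → ℝ, G = fun e => if e ∈ S then g₁ else g := ⟨_, rfl⟩
      obtain ⟨G', hG'⟩ : ∃ G' : Fin k × Fin k → ZMod N → ℝ, G' = fun e => if e ∈ insert e₀ S then g₁ else g := ⟨_, rfl⟩
      rw [← hG] at ih'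
      rw [← hG']
      have hGb : ∀ e x, 0 ≤ G e x ∧ G e x ≤ 1 := by
        intro e x
        rw [hG]
        simp only
        split_ifs
        · exact hg₁ x
        · exact hg x
      obtain ⟨Qa, hQa⟩ : ∃ Qa : (Fin k → ZMod N) → ℝ, Qa = fun x =>
        ∏ e ∈ (E.erase e₀).filter (fun e => e.1 = e₀.1 ∨ e.2 = e₀.1), G e (x e.1 + x e.2) := ⟨_, rfl⟩
      obtain ⟨Qb, hQb⟩ : ∃ Qb : (Fin k → ZMod N) → ℝ, Qb = fun x =>
        ∏ e ∈ (E.erase e₀).filter (fun e => ¬ (e.1 = e₀.1 ∨ e.2 = e₀.1)), G e (x e.1 + x e.2) := ⟨_, rfl⟩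
      have hdiff : TT k E (fun _ => F) G - TT k E (fun _ => F) G' =
          ∑ x : Fin k → ZMod N, (∏ i, F (x i)) * (Qa x * Qb x) * (g (x e₀.1 + x e₀.2) - g₁ (x e₀.1 + x e₀.2)) := by
        unfold TT
        rw [← sum_sub_distrib]
        apply sum_congr rfl
        intro x _
        have h1 : ∏ e ∈ E, G e (x e.1 + x e.2) = g (x e₀.1 + x e₀.2) * (Qa x * Qb x) := by
          rw [← mul_prod_erase E _ h0, hQa, hQb]
          simp only
          rw [prod_filter_mul_prod_filter_not]
          congr 1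
          rw [hG]
          simp only
          rw [if_neg he₀]
        have h2 : ∏ e ∈ E, G' e (x e.1 + x e.2) = g₁ (x e₀.1 + x e₀.2) * (Qa x * Qb x) := by
          rw [← mul_prod_erase E _ h0, hQa, hQb]
          simp only
          rw [prod_filter_mul_prod_filter_not]
          have h3 : G' e₀ = g₁ := by rw [hG']; simp only; rw [if_pos (mem_insert_self _ _)]
          rw [h3]
          congr 1
          apply prod_congr rfl
          intro e he
          have h4 : G' e = G e := by
            rw [hG', hG]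
            simp only
            by_cases h5 : e ∈ S
            · rw [if_pos h5, if_pos (mem_insert_of_mem h5)]
            · rw [if_neg h5, if_neg]
              rw [mem_insert]
              rintro (h6 | h6)
              · exact ne_of_mem_erase he h6
              · exact h5 h6
          rw [h4]
        rw [h1, h2]
        ring
      have hstep : |TT k E (fun _ => F) G - TT k E (fun _ => F) G'| ≤ β := by
        rw [hdiff, hβ]
        apply edge_step k F hF0 hF C μ hC hμ hres e₀.1 e₀.2 hab.ne Qa Qb _ _ _ _ (fun x => g x - g₁ x) hh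
        · intro x
          have a1 := hg x
          have a2 := hg₁ x
          rw [abs_le]
          constructor <;> linarith
        · intro x
          rw [hQa]
          exact ⟨prod_nonneg fun e _ => (hGb e _).1, prod_le_one (fun e _ => (hGb e _).1) (fun e _ => (hGb e _).2)⟩
        · intro x
          rw [hQb]
          exact ⟨prod_nonneg fun e _ => (hGb e _).1, prod_le_one (fun e _ => (hGb e _).1) (fun e _ => (hGb e _).2)⟩
        · intro x v
          rw [hQa]
          apply prod_congr rfl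
          intro e he
          rw [mem_filter, mem_erase] at he
          obtain ⟨⟨h3, h4⟩, h5⟩ := he
          have h6 := hE e h4
          have h7 : e.1 ≠ e₀.2 := by
            rintro h8
            rcases h5 with h5 | h5
            · exact hab.ne (h5.symm.trans h8)
            · rw [h8, h5] at h6
              exact lt_asymm h6 hab
          have h8 : e.2 ≠ e₀.2 := by
            rintro h9
            rcases h5 with h5 | h5
            · exact h3 (Prod.ext h5 h9)
            · exact hab.ne (h5.symm.trans h9)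
          rw [Function.update_of_ne h7, Function.update_of_ne h8]
        · intro x u
          rw [hQb]
          apply prod_congr rfl
          intro e he
          rw [mem_filter, mem_erase] at he
          obtain ⟨_, h5⟩ := he
          rw [Function.update_of_ne (fun h => h5 (Or.inl h)), Function.update_of_ne (fun h => h5 (Or.inr h))]
      rw [card_insert_of_notMem he₀]
      push_cast
      calc |TT k E (fun _ => F) (fun _ => g) - TT k E (fun _ => F) G'| =
          |(TT k E (fun _ => F) (fun _ => g) - TT k E (fun _ => F) G) + (TT k E (fun _ => F) G - TT k E (fun _ => F) G')| := by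
            congr 1; ring
        _ ≤ _ := abs_add_le _ _
        _ ≤ S.card * β + β := add_le_add ih' hstep
        _ = _ := by ring
  have hfin := key E (Subset.refl _)
  have e : TT k E (fun _ => F) (fun e => if e ∈ E then g₁ else g) = TT k E (fun _ => F) (fun _ => g₁) := by
    unfold TT
    apply sum_congr rfl
    intro x _
    congr 1
    apply prod_congr rfl
    intro e he
    simp only
    rw [if_pos he]
  rw [e] at hfin
  exact hfin

lemma vert_one {ι : Type} (h : ZMod N → ℝ) (M : ℝ) (hM : ∀ ξ, ‖hat h ξ‖ ≤ M)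
    (g₁ : ZMod N → ℝ) (R : ℝ) (hR : ∑ ξ, ‖hat g₁ ξ‖ ≤ R * N) (c : ι → ZMod N) (s : Finset ι) :
    ∀ ξ : ZMod N, ‖∑ u, ((h u * ∏ e ∈ s, g₁ (u + c e) : ℝ) : ℂ) * ZMod.stdAddChar (ξ * u)‖ ≤ M * R ^ s.card := by
  classical
  have hN : 0 < N := Nat.pos_of_ne_zero (NeZero.ne N)
  have hN0 : (0 : ℝ) < N := by exact_mod_cast hN
  have hM0 : 0 ≤ M := (norm_nonneg _).trans (hM 0)
  have hR0 : 0 ≤ R := by
    by_contra hcon
    push Not at hcon
    have h1 : 0 ≤ ∑ ξ, ‖hat g₁ ξ‖ := sum_nonneg fun _ _ => norm_nonneg _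
    nlinarith
  induction s using Finset.induction_on with
  | empty =>
    intro ξ
    simp only [prod_empty, mul_one, card_empty, pow_zero]
    exact hM ξ
  | insert e₀ s he₀ ih =>
    intro ξ
    have h1 : (N : ℂ) * ∑ u, ((h u * ∏ e ∈ insert e₀ s, g₁ (u + c e) : ℝ) : ℂ) * ZMod.stdAddChar (ξ * u) =
        ∑ ζ : ZMod N, hat g₁ ζ * ZMod.stdAddChar (-(ζ * c e₀)) * ∑ u, ((h u * ∏ e ∈ s, g₁ (u + c e) : ℝ) : ℂ) * ZMod.stdAddChar ((ξ - ζ) * u) := by
      calc (N : ℂ) * ∑ u, ((h u * ∏ e ∈ insert e₀ s, g₁ (u + c e) : ℝ) : ℂ) * ZMod.stdAddChar (ξ * u) =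
          ∑ u, ∑ ζ : ZMod N, hat g₁ ζ * ZMod.stdAddChar (-(ζ * c e₀)) * (((h u * ∏ e ∈ s, g₁ (u + c e) : ℝ) : ℂ) * ZMod.stdAddChar ((ξ - ζ) * u)) := by
            rw [mul_sum]
            apply sum_congr rfl
            intro u _
            rw [prod_insert he₀]
            have h2 : (N : ℂ) * (((h u * (g₁ (u + c e₀) * ∏ e ∈ s, g₁ (u + c e)) : ℝ) : ℂ) * ZMod.stdAddChar (ξ * u)) =
                ((N : ℂ) * (g₁ (u + c e₀) : ℂ)) * (((h u * ∏ e ∈ s, g₁ (u + c e) : ℝ) : ℂ) * ZMod.stdAddChar (ξ * u)) := by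
              push_cast; ring
            rw [h2, inv_hat, sum_mul]
            apply sum_congr rfl
            intro ζ _
            have h3 : -(ζ * (u + c e₀)) = -(ζ * c e₀) + -(ζ * u) := by ring
            have h4 : (ξ - ζ) * u = ξ * u + -(ζ * u) := by ring
            rw [h3, h4, AddChar.map_add_eq_mul, AddChar.map_add_eq_mul]
            ring
        _ = _ := by
            rw [sum_comm]
            apply sum_congr rfl
            intro ζ _
            rw [mul_sum]
    have h2 : (N : ℝ) * ‖∑ u, ((h u * ∏ e ∈ insert e₀ s, g₁ (u + c e) : ℝ) : ℂ) * ZMod.stdAddChar (ξ * u)‖ ≤ N * (M * R ^ (insert e₀ s).card) := by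
      have h3 := congrArg norm h1
      rw [norm_mul, Complex.norm_natCast] at h3
      rw [h3]
      refine (norm_sum_le _ _).trans ?_
      calc ∑ ζ : ZMod N, ‖hat g₁ ζ * ZMod.stdAddChar (-(ζ * c e₀)) * ∑ u, ((h u * ∏ e ∈ s, g₁ (u + c e) : ℝ) : ℂ) * ZMod.stdAddChar ((ξ - ζ) * u)‖ ≤
          ∑ ζ : ZMod N, ‖hat g₁ ζ‖ * (M * R ^ s.card) := by
            apply sum_le_sum
            intro ζ _
            rw [norm_mul, norm_mul, norm_chi, mul_one]
            exact mul_le_mul_of_nonneg_left (ih (ξ - ζ)) (norm_nonneg _)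
        _ = (∑ ζ : ZMod N, ‖hat g₁ ζ‖) * (M * R ^ s.card) := by rw [sum_mul]
        _ ≤ (R * N) * (M * R ^ s.card) := mul_le_mul_of_nonneg_right hR (by positivity)
        _ = _ := by rw [card_insert_of_notMem he₀]; ring
    exact le_of_mul_le_mul_left h2 hN0

theorem verts (k : ℕ) (E : Finset (Fin k × Fin k)) (hE : ∀ e ∈ E, e.1 < e.2)
    (f₁ f₂ : ZMod N → ℝ) (hf₁ : ∀ x, 0 ≤ f₁ x) (hf₂ : ∀ x, 0 ≤ f₂ x) (hs₁ : ∑ x, f₁ x ≤ 2 * N) (hs₂ : ∑ x, f₂ x ≤ 2 * N)
    (η : ℝ) (hη : 0 ≤ η) (hh : ∀ ξ, ‖hat (fun x => f₁ x - f₂ x) ξ‖ ≤ η * N)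
    (g₁ : ZMod N → ℝ) (hg₁ : ∀ x, 0 ≤ g₁ x ∧ g₁ x ≤ 1) (R : ℝ) (hR1 : 1 ≤ R) (hR : ∑ ξ, ‖hat g₁ ξ‖ ≤ R * N) :
    |TT k E (fun _ => f₁) (fun _ => g₁) - TT k E (fun _ => f₂) (fun _ => g₁)| ≤ k * (2 ^ k * (η * R ^ E.card) * (N : ℝ) ^ k) := by
  classical
  have hN : 0 < N := Nat.pos_of_ne_zero (NeZero.ne N)
  have hN0 : (0 : ℝ) < N := by exact_mod_cast hN
  obtain ⟨β, hβ⟩ : ∃ β, β = 2 ^ k * (η * R ^ E.card) * (N : ℝ) ^ k := ⟨_, rfl⟩
  rw [← hβ]
  have key : ∀ S : Finset (Fin k),
      |TT k E (fun _ => f₁) (fun _ => g₁) - TT k E (fun i => if i ∈ S then f₂ else f₁) (fun _ => g₁)| ≤ S.card * β := by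
    intro S
    induction S using Finset.induction_on with
    | empty =>
      have e : (fun i : Fin k => if i ∈ (∅ : Finset (Fin k)) then f₂ else f₁) = fun _ => f₁ := by
        funext e
        rw [if_neg (notMem_empty _)]
      rw [e, sub_self, abs_zero, card_empty, Nat.cast_zero, zero_mul]
    | insert a S ha ih =>
      obtain ⟨F, hF⟩ : ∃ F : Fin k → ZMod N → ℝ, F = fun i => if i ∈ S then f₂ else f₁ := ⟨_, rfl⟩
      obtain ⟨F', hF'⟩ : ∃ F' : Fin k → ZMod N → ℝ, F' = fun i => if i ∈ insert a S then f₂ else f₁ := ⟨_, rfl⟩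
      rw [← hF] at ih
      rw [← hF']
      obtain ⟨F₀, hF₀⟩ : ∃ F₀ : Fin k → ZMod N → ℝ, F₀ = fun i u => if i = a then 1 else F i u := ⟨_, rfl⟩
      have hFb : ∀ i x, 0 ≤ F i x := by
        intro i x
        rw [hF]
        simp only
        split_ifs
        · exact hf₂ x
        · exact hf₁ x
      have hFs : ∀ i, ∑ x, F i x ≤ 2 * N := by
        intro i
        rw [hF]
        simp only
        split_ifs
        · exact hs₂
        · exact hs₁
      obtain ⟨Φ, hΦ⟩ : ∃ Φ : (Fin k → ZMod N) → ℝ, Φ = fun x => (∏ i, F₀ i (x i)) * ((f₁ (x a) - f₂ (x a)) * ∏ e ∈ E, g₁ (x e.1 + x e.2)) := ⟨_, rfl⟩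
      have hFa : F a = f₁ := by rw [hF]; simp only; rw [if_neg ha]
      have hF'a : F' a = f₂ := by rw [hF']; simp only; rw [if_pos (mem_insert_self _ _)]
      have hF'i : ∀ i, i ≠ a → F' i = F i := by
        intro i hi
        rw [hF', hF]
        simp only
        by_cases h5 : i ∈ S
        · rw [if_pos h5, if_pos (mem_insert_of_mem h5)]
        · rw [if_neg h5, if_neg]
          rw [mem_insert]
          rintro (h6 | h6)
          · exact hi h6
          · exact h5 h6
      have hprod : ∀ (H : Fin k → ZMod N → ℝ) (x : Fin k → ZMod N), (∀ i, i ≠ a → H i = F i) → ∏ i, H i (x i) = H a (x a) * ∏ i, F₀ i (x i) := by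
        intro H x hH
        rw [← mul_prod_erase univ _ (mem_univ a), ← mul_prod_erase univ (fun i => F₀ i (x i)) (mem_univ a)]
        have h1 : F₀ a (x a) = 1 := by rw [hF₀]; simp
        rw [h1, one_mul]
        congr 1
        apply prod_congr rfl
        intro i hi
        rw [hH i (ne_of_mem_erase hi), hF₀]
        simp only
        rw [if_neg (ne_of_mem_erase hi)]
      have hdiff : TT k E F (fun _ => g₁) - TT k E F' (fun _ => g₁) = ∑ x : Fin k → ZMod N, Φ x := by
        unfold TT
        rw [← sum_sub_distrib]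
        apply sum_congr rfl
        intro x _
        rw [hprod F x (fun _ _ => rfl), hprod F' x hF'i, hFa, hF'a, hΦ]
        ring
      have hrep := upd_sum k a Φ
      rw [ZMod.card] at hrep
      have hone : ∀ x : Fin k → ZMod N, |∑ u, Φ (Function.update x a u)| ≤ (∏ i, F₀ i (x i)) * (η * N * R ^ E.card) := by
        intro x
        have hF₀0 : 0 ≤ ∏ i, F₀ i (x i) := by
          apply prod_nonneg
          intro i _
          rw [hF₀]
          simp only
          split_ifs
          · norm_num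
          · exact hFb i _
        obtain ⟨Ea, hEa⟩ : ∃ Ea, Ea = E.filter (fun e => e.1 = a ∨ e.2 = a) := ⟨_, rfl⟩
        obtain ⟨q, hq⟩ : ∃ q : ℝ, q = ∏ e ∈ E.filter (fun e => ¬ (e.1 = a ∨ e.2 = a)), g₁ (x e.1 + x e.2) := ⟨_, rfl⟩
        have hq0 : 0 ≤ q ∧ q ≤ 1 := by
          rw [hq]
          exact ⟨prod_nonneg fun e _ => (hg₁ _).1, prod_le_one (fun e _ => (hg₁ _).1) (fun e _ => (hg₁ _).2)⟩
        obtain ⟨c, hc⟩ : ∃ c : Fin k × Fin k → ZMod N, c = fun e => if e.1 = a then x e.2 else x e.1 := ⟨_, rfl⟩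
        have h1 : ∀ u, Φ (Function.update x a u) = (∏ i, F₀ i (x i)) * (q * ((f₁ u - f₂ u) * ∏ e ∈ Ea, g₁ (u + c e))) := by
          intro u
          rw [hΦ]
          simp only
          rw [Function.update_self]
          have h2 : ∏ i, F₀ i ((Function.update x a u) i) = ∏ i, F₀ i (x i) := by
            apply prod_congr rfl
            intro i _
            by_cases hi : i = a
            · rw [hF₀]; simp only; rw [if_pos hi, if_pos hi]
            · rw [Function.update_of_ne hi]
          have h3 : ∏ e ∈ E, g₁ ((Function.update x a u) e.1 + (Function.update x a u) e.2) = (∏ e ∈ Ea, g₁ (u + c e)) * q := by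
            rw [hq, hEa, ← prod_filter_mul_prod_filter_not E (fun e => e.1 = a ∨ e.2 = a)]
            congr 1
            · apply prod_congr rfl
              intro e he
              rw [mem_filter] at he
              have h4 := hE e he.1
              rw [hc]
              simp only
              by_cases h5 : e.1 = a
              · rw [if_pos h5]
                have h6 : e.2 ≠ a := fun h => by rw [h5, h] at h4; exact lt_irrefl _ h4
                rw [Function.update_of_ne h6, h5, Function.update_self]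
              · rw [if_neg h5]
                have h6 : e.2 = a := he.2.resolve_left h5
                rw [Function.update_of_ne h5, h6, Function.update_self, add_comm]
            · apply prod_congr rfl
              intro e he
              rw [mem_filter] at he
              rw [Function.update_of_ne (fun h => he.2 (Or.inl h)), Function.update_of_ne (fun h => he.2 (Or.inr h))]
          rw [h2, h3]
          ring
        rw [sum_congr rfl fun u _ => h1 u, ← mul_sum, ← mul_sum, abs_mul, abs_mul, abs_of_nonneg hF₀0, abs_of_nonneg hq0.1]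
        apply mul_le_mul_of_nonneg_left _ hF₀0
        have h7 := vert_one (fun x => f₁ x - f₂ x) (η * N) hh g₁ R hR c Ea 0
        have h8 : ∑ u, (((fun x => f₁ x - f₂ x) u * ∏ e ∈ Ea, g₁ (u + c e) : ℝ) : ℂ) * ZMod.stdAddChar ((0 : ZMod N) * u) =
            ((∑ u, (f₁ u - f₂ u) * ∏ e ∈ Ea, g₁ (u + c e) : ℝ) : ℂ) := by
          rw [Complex.ofReal_sum]
          apply sum_congr rfl
          intro u _
          rw [zero_mul, AddChar.map_zero_eq_one, mul_one]
        rw [h8, Complex.norm_real, Real.norm_eq_abs] at h7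
        have h9 : R ^ Ea.card ≤ R ^ E.card := pow_le_pow_right₀ hR1 (by rw [hEa]; exact card_filter_le _ _)
        calc q * |∑ u, (f₁ u - f₂ u) * ∏ e ∈ Ea, g₁ (u + c e)| ≤ 1 * (η * N * R ^ Ea.card) :=
              mul_le_mul hq0.2 h7 (abs_nonneg _) (by norm_num)
          _ ≤ η * N * R ^ E.card := by
              rw [one_mul]
              exact mul_le_mul_of_nonneg_left h9 (by positivity)
      have hstep : |TT k E F (fun _ => g₁) - TT k E F' (fun _ => g₁)| ≤ β := by
        rw [hdiff]
        have h2 : (N : ℝ) * |∑ x : Fin k → ZMod N, Φ x| ≤ N * β := by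
          have h3 : (N : ℝ) * |∑ x : Fin k → ZMod N, Φ x| = |(N : ℝ) * ∑ x : Fin k → ZMod N, Φ x| := by
            rw [abs_mul, abs_of_pos hN0]
          rw [h3, hrep]
          refine (abs_sum_le_sum_abs _ _).trans ?_
          refine (sum_le_sum fun x _ => hone x).trans ?_
          rw [← sum_mul]
          have h4 : ∑ x : Fin k → ZMod N, ∏ i, F₀ i (x i) ≤ (2 * (N : ℝ)) ^ k := by
            apply prod_le_pow
            intro i
            rw [hF₀]
            simp only
            by_cases hi : i = a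
            · rw [sum_congr rfl fun u _ => if_pos hi, sum_const, card_univ, ZMod.card, nsmul_eq_mul, mul_one]
              exact ⟨hN0.le, by linarith⟩
            · rw [sum_congr rfl fun u _ => if_neg hi]
              exact ⟨sum_nonneg fun u _ => hFb i u, hFs i⟩
          calc (∑ x : Fin k → ZMod N, ∏ i, F₀ i (x i)) * (η * N * R ^ E.card) ≤ (2 * (N : ℝ)) ^ k * (η * N * R ^ E.card) :=
                mul_le_mul_of_nonneg_right h4 (by positivity)
            _ = N * β := by rw [hβ, mul_pow]; ring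
        exact le_of_mul_le_mul_left h2 hN0
      rw [card_insert_of_notMem ha]
      push_cast
      calc |TT k E (fun _ => f₁) (fun _ => g₁) - TT k E F' (fun _ => g₁)| =
          |(TT k E (fun _ => f₁) (fun _ => g₁) - TT k E F (fun _ => g₁)) + (TT k E F (fun _ => g₁) - TT k E F' (fun _ => g₁))| := by
            congr 1; ring
        _ ≤ _ := abs_add_le _ _
        _ ≤ S.card * β + β := add_le_add ih hstep
        _ = _ := by ring
  have hfin := key univ
  have e : TT k E (fun i => if i ∈ (univ : Finset (Fin k)) then f₂ else f₁) (fun _ => g₁) = TT k E (fun _ => f₂) (fun _ => g₁) := by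
    congr 1
    funext i
    rw [if_pos (mem_univ _)]
  rw [e, card_univ, Fintype.card_fin] at hfin
  exact hfin

end Pool.Agent.H563.RC
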