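import Mathlib
import Pool.Agent.H563.RC.Trans

set_option autoImplicit false

/-! Many cliques. -/

namespace Pool.Agent.H563.RC

open Finset
open Pool.Agent.H373R2.NB (hat parseval sum_chi norm_chi chi_conj)
open Pool.Agent.H563.RG

variable {N : ℕ} [NeZero N]

lemma hat_le (g : ZMod N → ℝ) (hg : ∀ x, 0 ≤ g x ∧ g x ≤ 1) (ξ : ZMod N) : ‖hat g ξ‖ ≤ N := by
  unfold hat
  refine (norm_sum_le _ _).trans ?_
  calc ∑ m, ‖(g m : ℂ) * ZMod.stdAddChar (ξ * m)‖ ≤ ∑ _m : ZMod N, (1 : ℝ) := by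
        apply sum_le_sum
        intro m _
        rw [norm_mul, norm_chi, mul_one, Complex.norm_real, Real.norm_of_nonneg (hg m).1]
        exact (hg m).2
    _ = N := by rw [sum_const, card_univ, ZMod.card, nsmul_eq_mul, mul_one]

lemma hat_cube (g : ZMod N → ℝ) (hg : ∀ x, 0 ≤ g x ∧ g x ≤ 1) : ∑ ξ, ‖hat g ξ‖ ^ 3 ≤ 1 * (N : ℝ) ^ 3 := by
  have hN0 : (0 : ℝ) ≤ N := Nat.cast_nonneg _
  have h4 : ∑ ξ, ‖hat g ξ‖ ^ 2 ≤ N * N := by
    rw [parseval]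
    apply mul_le_mul_of_nonneg_left _ hN0
    calc ∑ m, g m ^ 2 ≤ ∑ _m : ZMod N, (1 : ℝ) := by
          apply sum_le_sum
          intro m _
          have := hg m
          nlinarith
      _ = N := by rw [sum_const, card_univ, ZMod.card, nsmul_eq_mul, mul_one]
  calc ∑ ξ, ‖hat g ξ‖ ^ 3 ≤ ∑ ξ, (N : ℝ) * ‖hat g ξ‖ ^ 2 := by
        apply sum_le_sum
        intro ξ _
        have h5 : ‖hat g ξ‖ ^ 3 = ‖hat g ξ‖ * ‖hat g ξ‖ ^ 2 := by ring
        rw [h5]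
        exact mul_le_mul_of_nonneg_right (hat_le g hg ξ) (by positivity)
    _ = (N : ℝ) * ∑ ξ, ‖hat g ξ‖ ^ 2 := by rw [mul_sum]
    _ ≤ N * (N * N) := mul_le_mul_of_nonneg_left h4 (by positivity)
    _ = _ := by ring

lemma sm_le_one (B : Finset (ZMod N)) (hB : 0 < B.card) (g : ZMod N → ℝ) (hg : ∀ x, g x ≤ 1) (x : ZMod N) : sm B g x ≤ 1 := by
  have hB0 : (0 : ℝ) < B.card := by exact_mod_cast hB
  unfold sm
  have h1 : ∑ h ∈ B, ∑ h' ∈ B, g (x + h - h') ≤ (B.card : ℝ) ^ 2 := by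
    calc ∑ h ∈ B, ∑ h' ∈ B, g (x + h - h') ≤ ∑ _h ∈ B, ∑ _h' ∈ B, (1 : ℝ) :=
          sum_le_sum fun h _ => sum_le_sum fun h' _ => hg _
      _ = _ := by simp [sq]
  calc 1 / (B.card : ℝ) ^ 2 * ∑ h ∈ B, ∑ h' ∈ B, g (x + h - h') ≤ 1 / (B.card : ℝ) ^ 2 * (B.card : ℝ) ^ 2 :=
        mul_le_mul_of_nonneg_left h1 (by positivity)
    _ = 1 := by field_simp

/-- decomposition of a bounded function -/
theorem decomp (σ : ℝ) (hσ : 0 < σ) : ∃ R : ℝ, 1 ≤ R ∧ ∀ N : ℕ, ∀ _ : NeZero N, ∀ g : ZMod N → ℝ, (∀ x, 0 ≤ g x ∧ g x ≤ 1) →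
    ∃ g₁ : ZMod N → ℝ, (∀ x, 0 ≤ g₁ x ∧ g₁ x ≤ 1) ∧ (∀ ξ, ‖hat (fun x => g x - g₁ x) ξ‖ ≤ σ * N) ∧ ∑ ξ, ‖hat g₁ ξ‖ ≤ R * N := by
  obtain ⟨R₀, hR₀⟩ : ∃ R₀ : ℕ, R₀ = ⌈1 / σ ^ 3⌉₊ := ⟨_, rfl⟩
  obtain ⟨T, hT⟩ : ∃ T : ℕ, T = ⌈16 / σ⌉₊ + 1 := ⟨_, rfl⟩
  have hT1 : 1 ≤ T := by omega
  have hT0 : (0 : ℝ) < T := by exact_mod_cast hT1
  have hTσ : 16 / (T : ℝ) ≤ σ := by
    have h1 : 16 / σ ≤ T := (Nat.le_ceil _).trans (by exact_mod_cast (by omega : ⌈16 / σ⌉₊ ≤ T))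
    rw [div_le_iff₀ hσ] at h1
    rw [div_le_iff₀ hT0]
    linarith
  refine ⟨(T : ℝ) ^ R₀, one_le_pow₀ (by exact_mod_cast hT1), ?_⟩
  intro N hNz g hg
  have hN : 0 < N := Nat.pos_of_ne_zero (NeZero.ne N)
  have hN0 : (0 : ℝ) < N := by exact_mod_cast hN
  obtain ⟨Λ, hΛ⟩ : ∃ Λ : Finset (ZMod N), Λ = univ.filter (fun ξ : ZMod N => σ * N ≤ ‖hat g ξ‖) := ⟨_, rfl⟩
  have hΛc : Λ.card ≤ R₀ := by
    have h1 := large_spec g σ 1 hσ (hat_cube g hg)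
    rw [← hΛ] at h1
    rw [hR₀]
    exact_mod_cast h1.trans (Nat.le_ceil _)
  obtain ⟨B, hB⟩ : ∃ B, B = bohr Λ T := ⟨_, rfl⟩
  have hBpos : 0 < B.card := by rw [hB]; exact_mod_cast bohr_pos Λ T
  have hB0 : (0 : ℝ) < B.card := by exact_mod_cast hBpos
  have hBN : (N : ℝ) ≤ B.card * (T : ℝ) ^ R₀ := by
    have h1 := bohr_card Λ T hT1
    rw [← hB] at h1
    have h2 : B.card * T ^ Λ.card ≤ B.card * T ^ R₀ := Nat.mul_le_mul_left _ (Nat.pow_le_pow_right hT1 hΛc)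
    exact_mod_cast h1.trans h2
  refine ⟨sm B g, fun x => ⟨sm_nonneg B g (fun y => (hg y).1) x, sm_le_one B hBpos g (fun y => (hg y).2) x⟩, ?_, ?_⟩
  · intro ξ
    have e1 : hat (fun x => g x - sm B g x) ξ = ((1 - br B ξ : ℝ) : ℂ) * hat g ξ := by
      have h1 : hat (fun x => g x - sm B g x) ξ = hat g ξ - hat (sm B g) ξ := by
        unfold hat
        rw [← sum_sub_distrib]
        apply sum_congr rfl
        intro m _
        push_cast
        ring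
      rw [h1, hat_sm]
      push_cast
      ring
    have b0 := br_nonneg B ξ
    have b1 := br_le B hBpos ξ
    rw [e1, norm_mul, Complex.norm_real, Real.norm_of_nonneg (by linarith)]
    by_cases hξ : ξ ∈ Λ
    · have h4 : 1 - br B ξ ≤ 2 * (8 / T) := by
        apply br_near B hBpos
        intro x hx
        rw [hB, mem_bohr] at hx
        exact chi_near _ T hT1 (hx ξ hξ)
      have h5 : 1 - br B ξ ≤ σ := by
        refine h4.trans (le_trans (le_of_eq ?_) hTσ)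
        ring
      exact mul_le_mul h5 (hat_le g hg ξ) (norm_nonneg _) hσ.le
    · have h4 : ‖hat g ξ‖ < σ * N := by
        by_contra hcon
        push Not at hcon
        apply hξ
        rw [hΛ]
        exact mem_filter.2 ⟨mem_univ _, hcon⟩
      calc (1 - br B ξ) * ‖hat g ξ‖ ≤ 1 * ‖hat g ξ‖ := mul_le_mul_of_nonneg_right (by linarith) (norm_nonneg _)
        _ ≤ σ * N := by linarith
  · calc ∑ ξ, ‖hat (sm B g) ξ‖ ≤ ∑ ξ, br B ξ * N := by
          apply sum_le_sum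
          intro ξ _
          rw [hat_sm, norm_mul, Complex.norm_real, Real.norm_of_nonneg (br_nonneg B ξ)]
          exact mul_le_mul_of_nonneg_left (hat_le g hg ξ) (br_nonneg B ξ)
      _ = (N / B.card) * N := by rw [← sum_mul, br_sum B hBpos]
      _ ≤ (T : ℝ) ^ R₀ * N := by
          apply mul_le_mul_of_nonneg_right _ hN0.le
          rw [div_le_iff₀ hB0]
          linarith

/-- all the pairs -/
def EE (k : ℕ) : Finset (Fin k × Fin k) := univ.filter (fun e => e.1 < e.2)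

lemma EE_card (k : ℕ) : (EE k).card ≤ k ^ 2 := by
  unfold EE
  refine (card_filter_le _ _).trans ?_
  rw [card_univ, Fintype.card_prod, Fintype.card_fin, sq]

open Classical in
/-- the indicator of the sums `m + m` -/
noncomputable def dbl (Z : Finset (ZMod N)) (s : ZMod N) : ℝ := if ∃ m ∈ Z, s = m + m then 1 else 0

lemma dbl_bd (Z : Finset (ZMod N)) (s : ZMod N) : 0 ≤ dbl Z s ∧ dbl Z s ≤ 1 := by
  unfold dbl
  split_ifs <;> norm_num

/-- the lower bound for the interval -/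
theorem ind_lower (k L : ℕ) (hNL : N = 2 * L + 1) (Z : Finset (ZMod N)) (α D : ℕ) (hZ : ∀ m ∈ Z, α ≤ m.val ∧ m.val < α + D)
    (hDα : D ≤ α) (hDL : α + 2 * D ≤ L) :
    (Z.card : ℝ) ^ (2 ^ k) * (N : ℝ) ^ k ≤ (N : ℝ) ^ (2 ^ k) * TT k (EE k) (fun _ => ind L) (fun _ => dbl Z) := by
  classical
  have hN : 0 < N := Nat.pos_of_ne_zero (NeZero.ne N)
  have hN0 : (0 : ℝ) < N := by exact_mod_cast hN
  have hc := cs_count k Z
  rw [ZMod.card] at hc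
  obtain ⟨Ψ, hΨ⟩ : ∃ Ψ : (Fin k → ZMod N) → ℝ, Ψ = fun x => (∏ i, ind L (x i)) * ∏ e ∈ EE k, dbl Z (x e.1 + x e.2) := ⟨_, rfl⟩
  have hΨ0 : ∀ x, 0 ≤ Ψ x := by
    intro x
    rw [hΨ]
    exact mul_nonneg (prod_nonneg fun i _ => ind_nonneg L _) (prod_nonneg fun e _ => (dbl_bd Z _).1)
  have hTT : TT k (EE k) (fun _ => ind L) (fun _ => dbl Z) = ∑ x, Ψ x := by rw [hΨ]; rfl
  have hdouble : ∀ a b : ZMod N, a + a = b + b → a = b := by
    intro a b hab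
    have h0 : ((2 * L + 1 : ℕ) : ZMod N) = 0 := by rw [← hNL]; exact ZMod.natCast_self N
    have h1 : ∀ a : ZMod N, a = ((L + 1 : ℕ) : ZMod N) * (a + a) := by
      intro a
      have h2 : ((L + 1 : ℕ) : ZMod N) * (a + a) = ((2 * L + 1 : ℕ) : ZMod N) * a + a := by
        push_cast; ring
      rw [h2, h0, zero_mul, zero_add]
    rw [h1 a, h1 b, hab]
  have h1 : ∑ d : Fin k → ZMod N, ((cs k Z d).card : ℝ) ≤ ∑ t : ZMod N, ∑ d : Fin k → ZMod N, Ψ (fun i => t + d i + d i) := by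
    rw [sum_comm]
    apply sum_le_sum
    intro d _
    have h2 : ((cs k Z d).card : ℝ) = ∑ t ∈ cs k Z d, (1 : ℝ) := by simp
    rw [h2]
    calc ∑ t ∈ cs k Z d, (1 : ℝ) ≤ ∑ t ∈ cs k Z d, Ψ (fun i => t + d i + d i) := by
          apply sum_le_sum
          intro t ht
          rw [hΨ]
          simp only
          have a1 : ∏ i : Fin k, ind L (t + d i + d i) = 1 := by
            apply prod_eq_one
            intro i _
            have b1 := hZ t (cs_sub k Z d t ht)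
            have b2 := hZ (t + d i) (cs_one k Z d t ht i)
            have e : t + d i + d i = (((t + d i).val : ℤ) + (t + d i).val - t.val : ℤ) := by
              push_cast
              rw [ZMod.natCast_zmod_val, ZMod.natCast_zmod_val]
              ring
            have hv := val_int (N := N) (((t + d i).val : ℤ) + (t + d i).val - t.val) (by omega) (by omega)
            unfold ind
            rw [if_pos]
            rw [← e] at hv
            omega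
          have a2 : ∏ e ∈ EE k, dbl Z (t + d e.1 + d e.1 + (t + d e.2 + d e.2)) = 1 := by
            apply prod_eq_one
            intro e he
            unfold EE at he
            rw [mem_filter] at he
            unfold dbl
            rw [if_pos]
            exact ⟨t + d e.1 + d e.2, cs_two k Z d t ht e.1 e.2 he.2.ne, by abel⟩
          rw [a1, a2, one_mul]
      _ ≤ _ := sum_le_sum_of_subset_of_nonneg (subset_univ _) fun _ _ _ => hΨ0 _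
  have h2 : ∀ t : ZMod N, ∑ d : Fin k → ZMod N, Ψ (fun i => t + d i + d i) ≤ ∑ x, Ψ x := by
    intro t
    have hinj : Function.Injective (fun (d : Fin k → ZMod N) (i : Fin k) => t + d i + d i) := by
      intro d d' hdd
      funext i
      have h3 := congrFun hdd i
      simp only at h3
      apply hdouble
      rw [add_assoc, add_assoc] at h3
      exact add_left_cancel h3
    calc ∑ d : Fin k → ZMod N, Ψ (fun i => t + d i + d i) =
        ∑ x ∈ univ.image (fun (d : Fin k → ZMod N) (i : Fin k) => t + d i + d i), Ψ x := by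
          rw [sum_image (fun x _ y _ h => hinj h)]
      _ ≤ _ := sum_le_sum_of_subset_of_nonneg (subset_univ _) fun _ _ _ => hΨ0 _
  have h3 : ∑ d : Fin k → ZMod N, ((cs k Z d).card : ℝ) ≤ N * ∑ x, Ψ x := by
    refine h1.trans ?_
    refine (sum_le_sum fun t _ => h2 t).trans ?_
    rw [sum_const, card_univ, ZMod.card, nsmul_eq_mul]
  rw [hTT]
  have h4 : (N : ℝ) * ((Z.card : ℝ) ^ (2 ^ k) * (N : ℝ) ^ k) ≤ N * ((N : ℝ) ^ (2 ^ k) * ∑ x, Ψ x) := by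
    calc (N : ℝ) * ((Z.card : ℝ) ^ (2 ^ k) * (N : ℝ) ^ k) = (Z.card : ℝ) ^ (2 ^ k) * (N : ℝ) ^ (k + 1) := by ring
      _ ≤ _ := hc
      _ ≤ (N : ℝ) ^ (2 ^ k) * (N * ∑ x, Ψ x) := mul_le_mul_of_nonneg_left h3 (by positivity)
      _ = _ := by ring
  exact le_of_mul_le_mul_left h4 hN0

/-- **many cliques** -/
theorem cliques (k : ℕ) (ζ : ℝ) (hζ : 0 < ζ) (C₂ : ℝ) (hC₂ : 0 < C₂) :
    ∃ η : ℝ, 0 < η ∧ η ≤ 1 ∧ ∀ N L : ℕ, ∀ _ : NeZero N, N = 2 * L + 1 →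
      ∀ f : ZMod N → ℝ, (∀ x, 0 ≤ f x) →
      (∀ ξ, ‖hat f ξ - hat (ind L) ξ‖ ≤ η * N) →
      (∀ u : ZMod N → ℝ, (∀ x, 0 ≤ u x ∧ u x ≤ f x) → ∑ ξ, ‖hat u ξ‖ ^ 3 ≤ C₂ * (N : ℝ) ^ 3) →
      ∀ Z : Finset (ZMod N), ∀ α D : ℕ, (∀ m ∈ Z, α ≤ m.val ∧ m.val < α + D) → D ≤ α → α + 2 * D ≤ L →
      ζ * N ≤ Z.card → ζ ^ (2 ^ k) / 2 * (N : ℝ) ^ k ≤ TT k (EE k) (fun _ => f) (fun _ => dbl Z) := by
  obtain ⟨ε, hε⟩ : ∃ ε : ℝ, ε = ζ ^ (2 ^ k) / 6 := ⟨_, rfl⟩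
  have hε0 : 0 < ε := by rw [hε]; positivity
  obtain ⟨C, hC⟩ : ∃ C : ℝ, C = 1 + C₂ := ⟨_, rfl⟩
  have hC0 : 0 < C := by rw [hC]; positivity
  obtain ⟨K, hK⟩ : ∃ K : ℝ, K = ((k : ℝ) ^ 2 + 1) * (2 ^ k * (C + 1)) := ⟨_, rfl⟩
  have hK0 : 0 < K := by rw [hK]; positivity
  obtain ⟨μ, hμ⟩ : ∃ μ : ℝ, μ = min 1 (ε / K) := ⟨_, rfl⟩
  have hμ0 : 0 < μ := by rw [hμ]; positivity
  have hμ1 : μ ≤ 1 := by rw [hμ]; exact min_le_left _ _
  have hμ2 : μ ≤ ε / K := by rw [hμ]; exact min_le_right _ _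
  have hμ3 : K * μ ^ 3 ≤ ε := by
    have h1 : μ ^ 3 ≤ μ := by
      have : μ ^ 3 ≤ μ ^ 1 := pow_le_pow_of_le_one hμ0.le hμ1 (by norm_num)
      rw [pow_one] at this
      exact this
    rw [le_div_iff₀ hK0] at hμ2
    nlinarith
  obtain ⟨R, hR1, hdec⟩ := decomp (μ ^ 9) (by positivity)
  have hR0 : 0 < R := by linarith
  obtain ⟨K₂, hK₂⟩ : ∃ K₂ : ℝ, K₂ = ((k : ℝ) + 1) * (2 ^ k * R ^ (k ^ 2)) := ⟨_, rfl⟩
  have hK₂0 : 0 < K₂ := by rw [hK₂]; positivity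
  refine ⟨min 1 (ε / K₂), by positivity, min_le_left _ _, ?_⟩
  intro N L hNz hNL f hf0 H1 H2 Z α D hZ hDα hDL hζZ
  have hN : 0 < N := by omega
  have hN0 : (0 : ℝ) < N := by exact_mod_cast hN
  obtain ⟨η, hη⟩ : ∃ η : ℝ, η = min 1 (ε / K₂) := ⟨_, rfl⟩
  rw [← hη] at H1
  have hη0 : 0 < η := by rw [hη]; positivity
  have hη1 : η ≤ 1 := by rw [hη]; exact min_le_left _ _
  have hη2 : K₂ * η ≤ ε := by
    have : η ≤ ε / K₂ := by rw [hη]; exact min_le_right _ _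
    rw [le_div_iff₀ hK₂0] at this
    linarith
  have hindb : ∀ x : ZMod N, 0 ≤ ind L x ∧ ind L x ≤ 1 := fun x => ⟨ind_nonneg L x, ind_le L x⟩
  have hinds : ∑ x : ZMod N, ind L x ≤ N := by
    calc ∑ x : ZMod N, ind L x ≤ ∑ _x : ZMod N, (1 : ℝ) := sum_le_sum fun x _ => ind_le L x
      _ = N := by rw [sum_const, card_univ, ZMod.card, nsmul_eq_mul, mul_one]
  have hfs : ∑ x : ZMod N, f x ≤ 2 * N := by
    have h1 := H1 0
    have h2 : ∀ u : ZMod N → ℝ, hat u 0 = ((∑ x, u x : ℝ) : ℂ) := by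
      intro u
      unfold hat
      rw [Complex.ofReal_sum]
      apply sum_congr rfl
      intro x _
      rw [zero_mul, AddChar.map_zero_eq_one, mul_one]
    rw [h2, h2, ← Complex.ofReal_sub, Complex.norm_real, Real.norm_eq_abs] at h1
    have h3 := (abs_le.1 h1).2
    have h4 : η * N ≤ 1 * N := mul_le_mul_of_nonneg_right hη1 hN0.le
    linarith
  have hcube : ∀ (F : ZMod N → ℝ), (∀ u : ZMod N → ℝ, (∀ x, 0 ≤ u x ∧ u x ≤ F x) → ∑ ξ, ‖hat u ξ‖ ^ 3 ≤ C * (N : ℝ) ^ 3) →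
      True := fun _ _ => trivial
  have hresf : ∀ u : ZMod N → ℝ, (∀ x, 0 ≤ u x ∧ u x ≤ f x) → ∑ ξ, ‖hat u ξ‖ ^ 3 ≤ C * (N : ℝ) ^ 3 := by
    intro u hu
    refine (H2 u hu).trans ?_
    apply mul_le_mul_of_nonneg_right _ (by positivity)
    rw [hC]; linarith
  have hresi : ∀ u : ZMod N → ℝ, (∀ x, 0 ≤ u x ∧ u x ≤ ind L x) → ∑ ξ, ‖hat u ξ‖ ^ 3 ≤ C * (N : ℝ) ^ 3 := by
    intro u hu
    refine (hat_cube u (fun x => ⟨(hu x).1, (hu x).2.trans (ind_le L x)⟩)).trans ?_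
    apply mul_le_mul_of_nonneg_right _ (by positivity)
    rw [hC]; linarith
  obtain ⟨g₁, hg₁, hg₁h, hg₁s⟩ := hdec N hNz (dbl Z) (dbl_bd Z)
  have hE : ∀ e ∈ EE k, e.1 < e.2 := fun e he => (mem_filter.1 he).2
  have t1 := edges k (EE k) hE f hf0 hfs C μ hC0.le hμ0 hresf (dbl Z) g₁ (dbl_bd Z) hg₁ hg₁h
  have t2 := edges k (EE k) hE (ind L) (fun x => ind_nonneg L x) (by linarith) C μ hC0.le hμ0 hresi (dbl Z) g₁ (dbl_bd Z) hg₁ hg₁h
  have t3 := verts k (EE k) hE f (ind L) hf0 (fun x => ind_nonneg L x) hfs (by linarith) η hη0.le (by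
    intro ξ
    have e : hat (fun x => f x - ind L x) ξ = hat f ξ - hat (ind L) ξ := by
      unfold hat
      rw [← sum_sub_distrib]
      apply sum_congr rfl
      intro m _
      push_cast
      ring
    rw [e]
    exact H1 ξ) g₁ hg₁ R hR1 hg₁s
  have t4 := ind_lower k L hNL Z α D hZ hDα hDL
  have hEc : ((EE k).card : ℝ) ≤ (k : ℝ) ^ 2 := by exact_mod_cast EE_card k
  have b1 : ((EE k).card : ℝ) * (2 ^ k * (μ ^ 3 * (C + 1)) * (N : ℝ) ^ k) ≤ ε * (N : ℝ) ^ k := by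
    calc ((EE k).card : ℝ) * (2 ^ k * (μ ^ 3 * (C + 1)) * (N : ℝ) ^ k) ≤ ((k : ℝ) ^ 2 + 1) * (2 ^ k * (μ ^ 3 * (C + 1)) * (N : ℝ) ^ k) := by
          apply mul_le_mul_of_nonneg_right _ (by positivity)
          linarith
      _ = (K * μ ^ 3) * (N : ℝ) ^ k := by rw [hK]; ring
      _ ≤ _ := mul_le_mul_of_nonneg_right hμ3 (by positivity)
  have b2 : (k : ℝ) * (2 ^ k * (η * R ^ (EE k).card) * (N : ℝ) ^ k) ≤ ε * (N : ℝ) ^ k := by
    have h1 : R ^ (EE k).card ≤ R ^ (k ^ 2) := pow_le_pow_right₀ hR1 (EE_card k)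
    calc (k : ℝ) * (2 ^ k * (η * R ^ (EE k).card) * (N : ℝ) ^ k) ≤ ((k : ℝ) + 1) * (2 ^ k * (η * R ^ (k ^ 2)) * (N : ℝ) ^ k) := by
          apply mul_le_mul
          · linarith
          · apply mul_le_mul_of_nonneg_right _ (by positivity)
            apply mul_le_mul_of_nonneg_left _ (by positivity)
            exact mul_le_mul_of_nonneg_left h1 hη0.le
          · positivity
          · positivity
      _ = (K₂ * η) * (N : ℝ) ^ k := by rw [hK₂]; ring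
      _ ≤ _ := mul_le_mul_of_nonneg_right hη2 (by positivity)
  have b3 : ζ ^ (2 ^ k) * (N : ℝ) ^ k ≤ TT k (EE k) (fun _ => ind L) (fun _ => dbl Z) := by
    have h1 : (N : ℝ) ^ (2 ^ k) * (ζ ^ (2 ^ k) * (N : ℝ) ^ k) ≤ (N : ℝ) ^ (2 ^ k) * TT k (EE k) (fun _ => ind L) (fun _ => dbl Z) := by
      refine le_trans ?_ t4
      calc (N : ℝ) ^ (2 ^ k) * (ζ ^ (2 ^ k) * (N : ℝ) ^ k) = (ζ * N) ^ (2 ^ k) * (N : ℝ) ^ k := by rw [mul_pow]; ring
        _ ≤ _ := by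
            apply mul_le_mul_of_nonneg_right _ (by positivity)
            exact pow_le_pow_left₀ (by positivity) hζZ _
    exact le_of_mul_le_mul_left h1 (by positivity)
  have u1 := (abs_le.1 (t1.trans b1)).1
  have u2 := (abs_le.1 (t2.trans b1)).2
  have u3 := (abs_le.1 (t3.trans b2)).1
  have u4 : ζ ^ (2 ^ k) / 2 * (N : ℝ) ^ k = ζ ^ (2 ^ k) * (N : ℝ) ^ k - 3 * (ε * (N : ℝ) ^ k) := by rw [hε]; ring
  rw [u4]
  linarith

end Pool.Agent.H563.RC
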