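import Mathlib
import Pool.Agent.H563.RG.Restr

set_option autoImplicit false

/-! The restriction estimate for arbitrary weights. -/

namespace Pool.Agent.H563.RC

open Finset
open Pool.Agent.H373R2.NB (hat chi_eq sum_val)
open Pool.Agent.Helper602.MK (PP J3Stmt J1aStmt)
open Pool.Agent.Y843.HS (VV Pr)
open Pool.Agent.K7.H64.LS (ZS Adm Good)
open Pool.Agent.H563.RG

/-- the restriction estimate -/
theorem restr_gen : ∃ C₂ : ℝ, 0 < C₂ ∧ ∀ W : ℕ, 1 ≤ W → ∃ X₀ : ℕ, ∀ X : ℕ, X₀ ≤ X → ∀ b : ℕ, b < W → Nat.Coprime b W →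
    ∀ L N : ℕ, ∀ _ : NeZero N, L = 2 * X / W + 1 → N = 2 * L + 1 → ∀ P : ℕ → Prop, ∀ _ : DecidablePred P,
    (∀ x, P x → x < L ∧ W * x + b ∈ PP (2 * X)) → ∀ a : ℕ → ℝ, (∀ x, 0 ≤ a x ∧ a x ≤ cst W X) →
    ∑ ξ : ZMod N, ‖hat (fun x : ZMod N => if P x.val then a x.val else 0) ξ‖ ^ 3 ≤ C₂ * (N : ℝ) ^ 3 := by
  obtain ⟨C, hC, hls⟩ := Pool.Agent.K7.H64.LS.lsp_uni (ι := Unit) 1 (κ := 1 / 2) (by norm_num) (s := 3 / 2) (by norm_num)
  obtain ⟨C₁, hC₁, hV⟩ := VV_lin
  obtain ⟨C₃, hC₃, hJ3⟩ := Pool.Agent.Helper602.MK.N_J3.J3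
  refine ⟨C * (16 * C₁ * C₃) ^ (3 / 2 : ℝ), by positivity, ?_⟩
  intro W hW
  refine ⟨W ^ 4 + 4, ?_⟩
  intro X hX b hbW hb L N hNz hL hN P hdec hP a ha
  have hW0 : (0 : ℝ) < W := by exact_mod_cast hW
  have hWX : W ^ 4 ≤ X := by omega
  have hW2 : W ^ 2 * W ^ 2 ≤ X := by
    calc W ^ 2 * W ^ 2 = W ^ 4 := by ring
      _ ≤ X := hWX
  have hW1 : 1 ≤ W ^ 2 := Nat.one_le_pow _ _ hW
  have hL2 : 2 ≤ L := by
    have : 1 ≤ 2 * X / W := by
      rw [Nat.le_div_iff_mul_le (by omega)]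
      nlinarith
    omega
  have hLr : (2 : ℝ) ≤ L := by exact_mod_cast hL2
  have hL0 : (0 : ℝ) < L := by linarith
  have hN1 : 1 ≤ N := by omega
  have hN0 : (0 : ℝ) < N := by exact_mod_cast hN1
  have hlL : 0 < Real.log L := Real.log_pos (by linarith)
  have hφ : 0 < Nat.totient W := Nat.totient_pos.2 hW
  have hφ0 : (0 : ℝ) < Nat.totient W := by exact_mod_cast hφ
  -- the logarithms
  have hlog : Real.log (2 * X : ℕ) ≤ 2 * Real.log L := by
    have h1 : 2 * X ≤ L * L := by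
      have h2 : 2 * X < W * L := by
        rw [hL]
        have := Nat.lt_mul_div_succ (2 * X) (show 0 < W by omega)
        exact this
      have h3 : W ≤ L := by
        by_contra hcon
        push Not at hcon
        have : W * L < W * W := Nat.mul_lt_mul_of_pos_left hcon (by omega)
        nlinarith
      nlinarith
    have h4 : Real.log (2 * X : ℕ) ≤ Real.log ((L : ℝ) * L) := by
      apply Real.log_le_log
      · exact_mod_cast (by omega : 0 < 2 * X)
      · exact_mod_cast h1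
    rw [Real.log_mul (by linarith) (by linarith)] at h4
    linarith
  have hlog0 : 0 ≤ Real.log (2 * X : ℕ) := Real.log_natCast_nonneg _
  -- the set
  obtain ⟨S, hS⟩ : ∃ S : Finset ℕ, S = (Ioc 0 (0 + L)).filter P := ⟨_, rfl⟩
  have hPpos : ∀ x, P x → 0 < x := by
    intro x hx
    obtain ⟨h1, h2⟩ := hP x hx
    rcases Nat.eq_zero_or_pos x with h0 | h0
    · exfalso
      rw [h0, mul_zero, zero_add, PP, mem_filter] at h2
      have h3 := h2.2.2
      have h4 : b ^ 2 ≤ W ^ 2 := Nat.pow_le_pow_left hbW.le 2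
      nlinarith
    · exact h0
  have hSsub : S ⊆ Ioc 0 (0 + L) := by rw [hS]; exact filter_subset _ _
  have hSgood : ∀ n ∈ S, Good (lin W b) (1 / 2) L n := by
    intro n hn
    rw [hS, mem_filter] at hn
    right
    intro i
    rw [lin_eval, Int.natAbs_natCast]
    have := (hP n hn.2).2
    rw [PP, mem_filter] at this
    exact this.2.1
  have hScard : (S.card : ℝ) ≤ C₃ * ((W : ℝ) / Nat.totient W) * L / Real.log L := by
    refine le_trans ?_ (hJ3 b W L hW hL2)
    have : S ⊆ (range L).filter (fun t => (b + t * W).Prime) := by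
      intro n hn
      rw [hS, mem_filter] at hn
      obtain ⟨h1, h2⟩ := hP n hn.2
      rw [PP, mem_filter] at h2
      rw [mem_filter, mem_range]
      refine ⟨h1, ?_⟩
      rw [add_comm, mul_comm]
      exact h2.2.1
    exact_mod_cast card_le_card this
  -- the points
  have hsep : ∀ i ∈ (univ : Finset (ZMod N)), ∀ j ∈ (univ : Finset (ZMod N)), i ≠ j →
      Pool.Agent.Helper112.lsSep N ((j.val : ℝ) / N - (i.val : ℝ) / N) := by
    intro i _ j _ hij
    have hi := ZMod.val_lt i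
    have hj := ZMod.val_lt j
    have hne : i.val ≠ j.val := fun h => hij (ZMod.val_injective N h)
    have key : ∀ d : ℕ, 1 ≤ d → d < N → Pool.Agent.Helper112.lsSep N ((d : ℝ) / N) := by
      intro d hd1 hdN
      have hd1' : (1 : ℝ) ≤ d := by exact_mod_cast hd1
      have hdN' : (d : ℝ) + 1 ≤ N := by exact_mod_cast hdN
      have hfr : Int.fract ((d : ℝ) / N) = (d : ℝ) / N := by
        rw [Int.fract_eq_self]
        exact ⟨by positivity, by rw [div_lt_one hN0]; linarith⟩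
      unfold Pool.Agent.Helper112.lsSep
      rw [hfr]
      constructor
      · exact div_le_div_of_nonneg_right hd1' hN0.le
      · rw [le_sub_iff_add_le, ← add_div, div_le_one hN0]; exact hdN'
    rcases lt_or_gt_of_ne hne with h | h
    · have e : (j.val : ℝ) / N - (i.val : ℝ) / N = ((j.val - i.val : ℕ) : ℝ) / N := by
        rw [Nat.cast_sub h.le]; ring
      rw [e]
      exact key _ (by omega) (by omega)
    · have e : (j.val : ℝ) / N - (i.val : ℝ) / N = -(((i.val - j.val : ℕ) : ℝ) / N) := by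
        rw [Nat.cast_sub h.le]; ring
      rw [e]
      exact (Pool.Agent.Helper112.lsSep_neg hN1 (key _ (by omega) (by omega))).1
  have hmain := hls (lin W b) (lin_adm W b hW hb) L hL2 0 S hSsub hSgood (ZMod N) univ (fun r => (r.val : ℝ) / N) N hN1 hsep
    (fun n => (a n : ℂ))
  -- the transform
  have hhat : ∀ ξ : ZMod N, hat (fun x : ZMod N => if P x.val then a x.val else 0) ξ =
      ∑ n ∈ S, (a n : ℂ) * Pool.Agent.Helper112.ee (n * ((ξ.val : ℝ) / N)) := by
    intro ξ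
    have h1 : hat (fun x : ZMod N => if P x.val then a x.val else 0) ξ =
        ∑ x : ZMod N, (fun t : ℕ => if P t then (a t : ℂ) * Pool.Agent.Helper112.ee (t * ((ξ.val : ℝ) / N)) else 0) x.val := by
      unfold hat
      apply sum_congr rfl
      intro x _
      simp only
      have hchi : (ZMod.stdAddChar (ξ * x) : ℂ) = Pool.Agent.Helper112.ee (x.val * ((ξ.val : ℝ) / N)) := by
        conv_lhs => rw [← ZMod.natCast_zmod_val x]
        rw [chi_eq]
        unfold Pool.Agent.Helper602.MK.ee Pool.Agent.Helper112.ee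
        congr 1
        push_cast
        ring
      split_ifs with h
      · rw [hchi]
      · rw [Complex.ofReal_zero, zero_mul]
    rw [h1, sum_val (fun t : ℕ => if P t then (a t : ℂ) * Pool.Agent.Helper112.ee (t * ((ξ.val : ℝ) / N)) else 0), ← sum_filter]
    apply sum_congr _ (fun _ _ => rfl)
    rw [hS]
    ext x
    rw [mem_filter, mem_filter, mem_range, mem_Ioc]
    constructor
    · rintro ⟨_, h⟩
      have := (hP x h).1
      exact ⟨⟨hPpos x h, by omega⟩, h⟩
    · rintro ⟨_, h⟩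
      have := (hP x h).1
      exact ⟨by omega, h⟩
  have hL3 : ∑ ξ : ZMod N, ‖hat (fun x : ZMod N => if P x.val then a x.val else 0) ξ‖ ^ 3 ≤
      C * (((L : ℝ) + N) * VV (ZS (lin W b)) 0 L * ∑ n ∈ S, ‖(a n : ℂ)‖ ^ 2) ^ (3 / 2 : ℝ) := by
    refine le_trans (le_of_eq ?_) hmain
    apply sum_congr rfl
    intro ξ _
    rw [hhat]
    rw [← Real.rpow_natCast _ 3, ← Real.rpow_natCast _ 2, ← Real.rpow_mul (norm_nonneg _)]
    norm_num
  refine hL3.trans ?_
  have hsq : ∑ n ∈ S, ‖(a n : ℂ)‖ ^ 2 ≤ S.card * cst W X ^ 2 := by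
    calc ∑ n ∈ S, ‖(a n : ℂ)‖ ^ 2 ≤ ∑ _n ∈ S, cst W X ^ 2 := by
          apply sum_le_sum
          intro n _
          rw [Complex.norm_real, Real.norm_of_nonneg (ha n).1]
          exact pow_le_pow_left₀ (ha n).1 (ha n).2 2
      _ = _ := by rw [sum_const, nsmul_eq_mul]
  obtain ⟨hV0, hV1⟩ := hV W b L hW hL2
  have hNL : (N : ℝ) = 2 * L + 1 := by rw [hN]; push_cast; ring
  have hinner : ((L : ℝ) + N) * VV (ZS (lin W b)) 0 L * (S.card * cst W X ^ 2) ≤ 16 * C₁ * C₃ * (N : ℝ) ^ 2 := by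
    have hc2 : cst W X ≤ (Nat.totient W : ℝ) / W * (2 * Real.log L) := by
      unfold cst
      exact mul_le_mul_of_nonneg_left hlog (by positivity)
    have hc3 : cst W X ^ 2 ≤ ((Nat.totient W : ℝ) / W * (2 * Real.log L)) ^ 2 := pow_le_pow_left₀ (cst_nonneg W X) hc2 2
    calc ((L : ℝ) + N) * VV (ZS (lin W b)) 0 L * (S.card * cst W X ^ 2) ≤
        ((L : ℝ) + N) * (C₁ * ((W : ℝ) / Nat.totient W) / Real.log L) *
          ((C₃ * ((W : ℝ) / Nat.totient W) * L / Real.log L) * ((Nat.totient W : ℝ) / W * (2 * Real.log L)) ^ 2) := by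
          apply mul_le_mul
          · exact mul_le_mul_of_nonneg_left hV1 (by positivity)
          · exact mul_le_mul hScard hc3 (by positivity) (by positivity)
          · positivity
          · positivity
      _ = 4 * C₁ * C₃ * (L + N) * L := by
          field_simp
          ring
      _ ≤ 16 * C₁ * C₃ * (N : ℝ) ^ 2 := by
          have h1 : (L + N : ℝ) * L ≤ 4 * (N : ℝ) ^ 2 := by rw [hNL]; nlinarith
          have h2 : 0 < C₁ * C₃ := by positivity
          nlinarith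
  have hs0 : 0 ≤ ∑ n ∈ S, ‖(a n : ℂ)‖ ^ 2 := sum_nonneg fun _ _ => by positivity
  have hinner2 : ((L : ℝ) + N) * VV (ZS (lin W b)) 0 L * ∑ n ∈ S, ‖(a n : ℂ)‖ ^ 2 ≤ 16 * C₁ * C₃ * (N : ℝ) ^ 2 :=
    (mul_le_mul_of_nonneg_left hsq (by positivity)).trans hinner
  calc C * (((L : ℝ) + N) * VV (ZS (lin W b)) 0 L * ∑ n ∈ S, ‖(a n : ℂ)‖ ^ 2) ^ (3 / 2 : ℝ) ≤
      C * (16 * C₁ * C₃ * (N : ℝ) ^ 2) ^ (3 / 2 : ℝ) := by
        apply mul_le_mul_of_nonneg_left _ hC.le
        apply Real.rpow_le_rpow _ hinner2 (by norm_num)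
        positivity
    _ = C * (16 * C₁ * C₃) ^ (3 / 2 : ℝ) * (N : ℝ) ^ 3 := by
        rw [Real.mul_rpow (by positivity) (by positivity), ← Real.rpow_natCast _ 2, ← Real.rpow_mul hN0.le]
        norm_num
        ring

end Pool.Agent.H563.RC
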