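import Mathlib
import Pool.Agent.H563.RC.Cliq
import Pool.Agent.H563.RC.RestrG
import Pool.Agent.H563.RC.Block
import Pool.Agent.H563.RG.Close3

set_option autoImplicit false

/-! Representations of `2n` by the edges of a graph on the primes with bounded independence number. -/

namespace Pool.Agent.H563.RC

open Finset
open Pool.Agent.H373R2.NB (hat chi_eq sum_val)
open Pool.Agent.Helper602.MK (PP ee)
open Pool.Agent.H563.RG (cst cst_nonneg closeness ind)

/-- the number of the primes `p < n` such that `2n - p` is a prime and `p` is joined to `2n - p` -/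
noncomputable def repsR (R : ℕ → ℕ → Prop) (n : ℕ) : ℕ := by
  classical
  exact ((range n).filter (fun p => p.Prime ∧ (2 * n - p).Prime ∧ R p (2 * n - p))).card

lemma log_sq_small (κ : ℝ) (hκ : 0 < κ) : ∃ Y : ℕ, ∀ X : ℕ, Y ≤ X → Real.log X ^ 2 ≤ κ * X := by
  have h1 := isLittleO_log_rpow_atTop (show (0 : ℝ) < 1 / 2 by norm_num)
  have h2 := h1.bound (show 0 < Real.sqrt κ by positivity)
  have h3 := tendsto_natCast_atTop_atTop (R := ℝ) |>.eventually h2
  obtain ⟨Y, hY⟩ := Filter.eventually_atTop.1 h3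
  refine ⟨Y, fun X hX => ?_⟩
  have h4 := hY X hX
  have hlog0 : 0 ≤ Real.log (X : ℝ) := Real.log_natCast_nonneg X
  rw [Real.norm_of_nonneg hlog0, Real.norm_of_nonneg (by positivity)] at h4
  have hX0 : (0 : ℝ) ≤ X := Nat.cast_nonneg X
  have h5 := pow_le_pow_left₀ hlog0 h4 2
  rw [mul_pow, Real.sq_sqrt hκ.le, ← Real.rpow_natCast, ← Real.rpow_natCast, ← Real.rpow_mul hX0] at h5
  norm_num at h5
  exact h5

section
variable {N : ℕ} [NeZero N]

open Classical in
lemma pairsum (Z : Finset (ZMod N)) (F : ZMod N → ZMod N → ℝ) (hF : ∀ u v, 0 ≤ F u v) :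
    ∑ u, ∑ v, (if ∃ m ∈ Z, u + v = m + m then F u v else 0) ≤ ∑ m ∈ Z, ∑ u, F u (m + m - u) := by
  have h1 : ∑ m ∈ Z, ∑ u, F u (m + m - u) = ∑ u, ∑ v, ∑ m ∈ Z, (if v = m + m - u then F u v else 0) := by
    rw [sum_comm]
    apply sum_congr rfl
    intro u _
    rw [sum_comm]
    apply sum_congr rfl
    intro m _
    rw [sum_ite_eq' univ (m + m - u), if_pos (mem_univ _)]
  rw [h1]
  apply sum_le_sum
  intro u _
  apply sum_le_sum
  intro v _
  split_ifs with h
  · obtain ⟨m, hm, he⟩ := h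
    have h2 : v = m + m - u := by rw [← he]; ring
    calc F u v = if v = m + m - u then F u v else 0 := by rw [if_pos h2]
      _ ≤ ∑ m ∈ Z, (if v = m + m - u then F u v else 0) := by
          apply single_le_sum (f := fun m => if v = m + m - u then F u v else 0) _ hm
          intro m _
          split_ifs
          · exact hF u v
          · exact le_rfl
  · apply sum_nonneg
    intro m _
    split_ifs
    · exact hF u v
    · exact le_rfl

lemma margsum (k : ℕ) (F : ZMod N → ℝ) (hF0 : ∀ x, 0 ≤ F x) (hF : ∑ x, F x ≤ 2 * N) (w : ZMod N → ZMod N → ℝ)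
    (hw : ∀ u v, 0 ≤ w u v) (a b : Fin k) (hab : a ≠ b) :
    (N : ℝ) ^ 2 * ∑ x : Fin k → ZMod N, (∏ i, F (x i)) * w (x a) (x b) ≤ (2 * (N : ℝ)) ^ k * ∑ u, ∑ v, F u * F v * w u v := by
  classical
  have hN : 0 < N := Nat.pos_of_ne_zero (NeZero.ne N)
  have hN0 : (0 : ℝ) < N := by exact_mod_cast hN
  obtain ⟨Φ, hΦ⟩ : ∃ Φ : (Fin k → ZMod N) → ℝ, Φ = fun x => (∏ i, F (x i)) * w (x a) (x b) := ⟨_, rfl⟩
  have e1 : (N : ℝ) * (N * ∑ x : Fin k → ZMod N, Φ x) =
      ∑ x : Fin k → ZMod N, ∑ u, ∑ v, Φ (Function.update (Function.update x a u) b v) := by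
    have h2 := upd_sum k b Φ
    have h3 := upd_sum k a (fun x => ∑ v, Φ (Function.update x b v))
    rw [ZMod.card] at h2 h3
    rw [h2, h3]
  obtain ⟨F', hF'⟩ : ∃ F' : Fin k → ZMod N → ℝ, F' = fun i u => if i = a ∨ i = b then 1 else F u := ⟨_, rfl⟩
  have e2 : ∀ x : Fin k → ZMod N, ∀ u v, ∏ i, F ((Function.update (Function.update x a u) b v) i) = F u * F v * ∏ i, F' i (x i) := by
    intro x u v
    have h3 : ∀ i, F ((Function.update (Function.update x a u) b v) i) = (if i = a then F u else 1) * (if i = b then F v else 1) * F' i (x i) := by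
      intro i
      rw [hF']
      simp only
      by_cases hb : i = b
      · subst hb
        rw [Function.update_self, if_neg (Ne.symm hab), if_pos rfl, if_pos (Or.inr rfl)]; ring
      · rw [Function.update_of_ne hb]
        by_cases ha : i = a
        · subst ha
          rw [Function.update_self, if_pos rfl, if_neg hb, if_pos (Or.inl rfl)]; ring
        · rw [Function.update_of_ne ha, if_neg ha, if_neg hb, if_neg (by tauto)]; ring
    rw [prod_congr rfl fun i _ => h3 i, prod_mul_distrib, prod_mul_distrib, prod_ite_eq' univ a, prod_ite_eq' univ b,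
      if_pos (mem_univ _), if_pos (mem_univ _)]
  have e3 : ∀ x : Fin k → ZMod N, ∑ u, ∑ v, Φ (Function.update (Function.update x a u) b v) =
      (∏ i, F' i (x i)) * ∑ u, ∑ v, F u * F v * w u v := by
    intro x
    rw [mul_sum]
    apply sum_congr rfl
    intro u _
    rw [mul_sum]
    apply sum_congr rfl
    intro v _
    rw [hΦ]
    simp only
    rw [e2, Function.update_self, Function.update_of_ne hab, Function.update_self]
    ring
  have e4 : (N : ℝ) ^ 2 * ∑ x : Fin k → ZMod N, Φ x = (∑ x : Fin k → ZMod N, ∏ i, F' i (x i)) * ∑ u, ∑ v, F u * F v * w u v := by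
    calc (N : ℝ) ^ 2 * ∑ x : Fin k → ZMod N, Φ x = (N : ℝ) * (N * ∑ x : Fin k → ZMod N, Φ x) := by ring
      _ = ∑ x : Fin k → ZMod N, ∑ u, ∑ v, Φ (Function.update (Function.update x a u) b v) := e1
      _ = _ := by rw [sum_congr rfl fun x _ => e3 x, sum_mul]
  have e5 : (N : ℝ) ^ 2 * ∑ x : Fin k → ZMod N, Φ x ≤ (2 * (N : ℝ)) ^ k * ∑ u, ∑ v, F u * F v * w u v := by
    rw [e4]
    apply mul_le_mul_of_nonneg_right
    · apply prod_le_pow
      intro i
      rw [hF']
      simp only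
      by_cases hi : i = a ∨ i = b
      · rw [sum_congr rfl fun u _ => if_pos hi, sum_const, card_univ, ZMod.card, nsmul_eq_mul, mul_one]
        exact ⟨hN0.le, by linarith⟩
      · rw [sum_congr rfl fun u _ => if_neg hi]
        exact ⟨sum_nonneg fun u _ => hF0 u, hF⟩
    · exact sum_nonneg fun u _ => sum_nonneg fun v _ => mul_nonneg (mul_nonneg (hF0 u) (hF0 v)) (hw u v)
  rw [hΦ] at e5
  exact e5

/-- the edges with a given midpoint -/
lemma mid_le (R : ℕ → ℕ → Prop) (W b X L μ : ℕ) (hW : 1 ≤ W) (hL : L = 2 * X / W + 1) (hN : N = 2 * L + 1)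
    (hμ : W * μ + b ≤ X) (f : ZMod N → ℝ) (c₀ : ℝ) (hc₀ : 0 ≤ c₀)
    (hf : ∀ x : ZMod N, f x ≠ 0 → x.val < L ∧ (W * x.val + b).Prime) (hf1 : ∀ x, 0 ≤ f x ∧ f x ≤ c₀)
    (w : ZMod N → ZMod N → ℝ) (hw : ∀ u v, 0 ≤ w u v ∧ w u v ≤ 1)
    (hwR : ∀ u v : ZMod N, w u v ≠ 0 → W * u.val + b < W * v.val + b ∧ R (W * u.val + b) (W * v.val + b)) :
    ∑ u : ZMod N, f u * f ((μ : ZMod N) + (μ : ZMod N) - u) * w u ((μ : ZMod N) + (μ : ZMod N) - u) ≤ c₀ ^ 2 * repsR R (W * μ + b) := by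
  classical
  obtain ⟨s, hs⟩ : ∃ s : ZMod N, s = (μ : ZMod N) + (μ : ZMod N) := ⟨_, rfl⟩
  rw [← hs]
  have hs2 : s = ((2 * μ : ℕ) : ZMod N) := by rw [hs]; push_cast; ring
  have hμL : 2 * μ < L := by
    have h1 : μ ≤ X / W := by
      rw [Nat.le_div_iff_mul_le (by omega), mul_comm]; omega
    have h2 : 2 * (X / W) ≤ 2 * X / W := Nat.mul_div_le_mul_div_assoc _ _ _
    omega
  obtain ⟨T, hT⟩ : ∃ T : Finset (ZMod N), T = univ.filter (fun u => f u * f (s - u) * w u (s - u) ≠ 0) := ⟨_, rfl⟩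
  have hTprop : ∀ u ∈ T, W * u.val + b < W * μ + b ∧ (W * u.val + b).Prime ∧ (2 * (W * μ + b) - (W * u.val + b)).Prime ∧
      R (W * u.val + b) (2 * (W * μ + b) - (W * u.val + b)) := by
    intro u hu
    rw [hT, mem_filter] at hu
    have h1 : f u ≠ 0 := fun h => hu.2 (by rw [h]; ring)
    have h2 : f (s - u) ≠ 0 := fun h => hu.2 (by rw [h]; ring)
    have h3 : w u (s - u) ≠ 0 := fun h => hu.2 (by rw [h]; ring)
    obtain ⟨a1, a2⟩ := hf u h1
    obtain ⟨b1, b2⟩ := hf (s - u) h2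
    obtain ⟨c1, c2⟩ := hwR u (s - u) h3
    have hsum : u.val + (s - u).val = 2 * μ := by
      have h4 : u + (s - u) = ((2 * μ : ℕ) : ZMod N) := by rw [← hs2]; ring
      have h5 := congrArg ZMod.val h4
      rw [ZMod.val_natCast_of_lt (by omega), ZMod.val_add_of_lt (by omega)] at h5
      exact h5
    have e2 : W * (u.val + (s - u).val) = W * (2 * μ) := by rw [hsum]
    have e3 : W * (2 * μ) = 2 * (W * μ) := by ring
    rw [Nat.mul_add, e3] at e2
    have e : 2 * (W * μ + b) - (W * u.val + b) = W * (s - u).val + b := by omega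
    rw [e]
    exact ⟨by omega, a2, b2, c2⟩
  have hTcard : T.card ≤ repsR R (W * μ + b) := by
    unfold repsR
    apply card_le_card_of_injOn (fun u => W * u.val + b)
    · intro u hu
      obtain ⟨a1, a2, a3, a4⟩ := hTprop u hu
      rw [mem_coe, mem_filter, mem_range]
      exact ⟨a1, a2, a3, a4⟩
    · intro u _ v _ h
      simp only at h
      have h1 : u.val = v.val := Nat.eq_of_mul_eq_mul_left (by omega) (by omega : W * u.val = W * v.val)
      exact ZMod.val_injective N h1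
  have h1 : ∑ u : ZMod N, f u * f (s - u) * w u (s - u) = ∑ u ∈ T, f u * f (s - u) * w u (s - u) := by
    rw [hT]
    symm
    apply sum_subset (filter_subset _ _)
    intro u _ hu
    by_contra hcon
    exact hu (mem_filter.2 ⟨mem_univ _, hcon⟩)
  rw [h1]
  calc ∑ u ∈ T, f u * f (s - u) * w u (s - u) ≤ ∑ _u ∈ T, c₀ ^ 2 := by
        apply sum_le_sum
        intro u _
        have a1 := hf1 u
        have a2 := hf1 (s - u)
        have a3 := hw u (s - u)
        calc f u * f (s - u) * w u (s - u) ≤ c₀ * c₀ * 1 :=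
              mul_le_mul (mul_le_mul a1.2 a2.2 a2.1 hc₀) a3.2 a3.1 (by positivity)
          _ = c₀ ^ 2 := by ring
    _ = T.card * c₀ ^ 2 := by rw [sum_const, nsmul_eq_mul]
    _ ≤ c₀ ^ 2 * repsR R (W * μ + b) := by
        rw [mul_comm]
        apply mul_le_mul_of_nonneg_left _ (by positivity)
        exact_mod_cast hTcard

end

theorem classesR (k : ℕ) (ε : ℝ) (hε : 0 < ε) (hε1 : ε ≤ 1) :
    ∃ w₀ : ℕ, ∀ W : ℕ, 1 ≤ W → (∀ p : ℕ, p.Prime → p ≤ w₀ → p ∣ W) →
    ∃ δ : ℝ, 0 < δ ∧ ∃ X₀ : ℕ, ∀ X : ℕ, X₀ ≤ X → ∀ R : ℕ → ℕ → Prop,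
    (∀ P : Finset ℕ, (∀ p ∈ P, p.Prime ∧ p ≤ 2 * X) → P.card = k → ∃ p ∈ P, ∃ q ∈ P, p < q ∧ R p q) →
    ∀ b : ℕ, b < W → Nat.Coprime b W →
    ∀ S : Finset ℕ, (∀ m ∈ S, W * m + b ≤ X ∧ (repsR R (W * m + b) : ℝ) < δ * X / Real.log X ^ 2) →
    (S.card : ℝ) ≤ ε * (X / W) := by
  classical
  obtain ⟨C₂, hC₂, hrestr⟩ := restr_gen
  obtain ⟨ζ, hζ, hblock⟩ := block ε hε hε1
  obtain ⟨η, hη, hη1, hcliq⟩ := cliques k ζ hζ C₂ hC₂
  obtain ⟨w₀, hclose⟩ := closeness η hη
  refine ⟨w₀, fun W hW hdiv => ?_⟩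
  obtain ⟨X₁, hclose⟩ := hclose W hW hdiv
  obtain ⟨X₂, hrestr⟩ := hrestr W hW
  have hW0 : (0 : ℝ) < W := by exact_mod_cast hW
  obtain ⟨c₁, hc₁⟩ : ∃ c₁ : ℝ, c₁ = ζ ^ (2 ^ k) / 2 := ⟨_, rfl⟩
  have hc₁0 : 0 < c₁ := by rw [hc₁]; positivity
  obtain ⟨K, hK⟩ : ∃ K : ℝ, K = ((k : ℝ) ^ 2 + 1) * 2 ^ k := ⟨_, rfl⟩
  have hK0 : 0 < K := by rw [hK]; positivity
  obtain ⟨Y₁, hY₁⟩ := log_sq_small (c₁ / (8 * K * W)) (by positivity)
  obtain ⟨Y₂, hY₂⟩ := exists_nat_ge (64 * W / ε)
  refine ⟨c₁ / (4 * K * W), by positivity, X₁ + X₂ + Y₁ + Y₂ + W + 3, fun X hX => ?_⟩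
  intro R hR b hb hbW S hS
  by_contra hcon
  push Not at hcon
  obtain ⟨L, hL⟩ : ∃ L : ℕ, L = 2 * X / W + 1 := ⟨_, rfl⟩
  obtain ⟨N, hN⟩ : ∃ N : ℕ, N = 2 * L + 1 := ⟨_, rfl⟩
  have hNz : NeZero N := ⟨by omega⟩
  have hNpos : 0 < N := by omega
  have hN0 : (0 : ℝ) < N := by exact_mod_cast hNpos
  have hX0 : (0 : ℝ) < X := by exact_mod_cast (by omega : 0 < X)
  have hL1 : 2 * (X : ℝ) / W ≤ L := by
    rw [div_le_iff₀ hW0]
    have h1 : 2 * X < W * L := by rw [hL]; exact Nat.lt_mul_div_succ _ (by omega)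
    have h2 : ((2 * X : ℕ) : ℝ) ≤ ((W * L : ℕ) : ℝ) := by exact_mod_cast h1.le
    push_cast at h2
    linarith
  have hLN : 2 * (L : ℝ) ≤ N := by exact_mod_cast (by omega : 2 * L ≤ N)
  have hSle : ∀ m ∈ S, 2 * m < L := by
    intro m hm
    have h0 := (hS m hm).1
    have h1 : m ≤ X / W := by
      rw [Nat.le_div_iff_mul_le (by omega), mul_comm]; omega
    have h2 : 2 * (X / W) ≤ 2 * X / W := Nat.mul_div_le_mul_div_assoc _ _ _
    omega
  obtain ⟨B, α, D, hBS, hBα, hDα, hDL, hBc⟩ := hblock W X L N hW (hY₂.trans (by exact_mod_cast (by omega : Y₂ ≤ X)))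
    (by omega) hL hN S hSle hcon
  -- the set in `ZMod N`
  obtain ⟨Z, hZ⟩ : ∃ Z : Finset (ZMod N), Z = B.image (fun m : ℕ => (m : ZMod N)) := ⟨_, rfl⟩
  have hBN : ∀ m ∈ B, m < N := by
    intro m hm
    have := hSle m (hBS hm)
    omega
  have hinj : Set.InjOn (fun m : ℕ => (m : ZMod N)) B := by
    intro x hx y hy h
    simp only at h
    have h1 := congrArg ZMod.val h
    rw [ZMod.val_natCast_of_lt (hBN x hx), ZMod.val_natCast_of_lt (hBN y hy)] at h1
    exact h1
  have hZcard : Z.card = B.card := by rw [hZ]; exact card_image_of_injOn hinj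
  have hcst := cst_nonneg W X
  obtain ⟨f, hf⟩ : ∃ f : ZMod N → ℝ, f = fun x => if x.val < L ∧ W * x.val + b ∈ PP (2 * X) then cst W X else 0 := ⟨_, rfl⟩
  have hf0 : ∀ x, 0 ≤ f x ∧ f x ≤ cst W X := by
    intro x
    rw [hf]
    simp only
    split_ifs
    · exact ⟨hcst, le_rfl⟩
    · exact ⟨le_rfl, hcst⟩
  have hfne2 : ∀ x : ZMod N, f x ≠ 0 → x.val < L ∧ (W * x.val + b).Prime ∧ W * x.val + b ≤ 2 * X := by
    intro x hx
    rw [hf] at hx
    simp only at hx
    by_cases h : x.val < L ∧ W * x.val + b ∈ PP (2 * X)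
    · have h2 := h.2
      rw [PP, mem_filter, mem_Icc] at h2
      exact ⟨h.1, h2.2.1, h2.1.2⟩
    · exact absurd (if_neg h) hx
  have hfne : ∀ x : ZMod N, f x ≠ 0 → x.val < L ∧ (W * x.val + b).Prime := fun x hx => ⟨(hfne2 x hx).1, (hfne2 x hx).2.1⟩
  have H1 : ∀ ξ, ‖hat f ξ - hat (ind L) ξ‖ ≤ η * N := by
    intro ξ
    rw [hf]
    exact hclose X (by omega) b hb hbW L N hNz hL hN (fun x => x < L ∧ W * x + b ∈ PP (2 * X)) (fun _ => inferInstance)
      (fun _ => Iff.rfl) ξ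
  have H2 : ∀ u : ZMod N → ℝ, (∀ x, 0 ≤ u x ∧ u x ≤ f x) → ∑ ξ, ‖hat u ξ‖ ^ 3 ≤ C₂ * (N : ℝ) ^ 3 := by
    intro u hu
    have h1 := hrestr X (by omega) b hb hbW L N hNz hL hN (fun x => x < L ∧ W * x + b ∈ PP (2 * X)) (fun _ => inferInstance)
      (fun x hx => hx) (fun x => u (x : ZMod N)) (fun x => ⟨(hu _).1, (hu _).2.trans (hf0 _).2⟩)
    have h2 : (fun x : ZMod N => if x.val < L ∧ W * x.val + b ∈ PP (2 * X) then u ((x.val : ℕ) : ZMod N) else 0) = u := by
      funext x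
      rw [ZMod.natCast_zmod_val]
      split_ifs with h
      · rfl
      · have h3 := hu x
        rw [hf] at h3
        simp only at h3
        rw [if_neg h] at h3
        linarith
    rw [h2] at h1
    exact h1
  have hmain := hcliq N L hNz hN f (fun x => (hf0 x).1) H1 H2 Z α D (by
      intro m hm
      rw [hZ, mem_image] at hm
      obtain ⟨t, ht, rfl⟩ := hm
      rw [ZMod.val_natCast_of_lt (hBN t ht)]
      exact hBα t ht) (by omega) (by omega) (by rw [hZcard]; exact hBc)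
  rw [← hc₁] at hmain
  have hfs : ∑ x : ZMod N, f x ≤ 2 * N := by
    have h1 := H1 0
    have h2 : ∀ u : ZMod N → ℝ, hat u 0 = ((∑ x, u x : ℝ) : ℂ) := by
      intro u
      unfold hat
      rw [Complex.ofReal_sum]
      apply sum_congr rfl
      intro x _
      rw [zero_mul, AddChar.map_zero_eq_one, mul_one]
    rw [h2, h2, ← Complex.ofReal_sub, Complex.norm_real, Real.norm_eq_abs] at h1
    have h3 := (abs_le.1 h1).2
    have h4 : η * N ≤ 1 * N := mul_le_mul_of_nonneg_right hη1 hN0.le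
    have h5 : ∑ x : ZMod N, ind L x ≤ N := by
      calc ∑ x : ZMod N, ind L x ≤ ∑ _x : ZMod N, (1 : ℝ) := sum_le_sum fun x _ => Pool.Agent.H563.RG.ind_le L x
        _ = N := by rw [sum_const, card_univ, ZMod.card, nsmul_eq_mul, mul_one]
    linarith
  -- the pair weights
  obtain ⟨w₁, hw₁⟩ : ∃ w₁ : ZMod N → ZMod N → ℝ, w₁ = fun u v =>
    if W * u.val + b < W * v.val + b ∧ R (W * u.val + b) (W * v.val + b) then 1 else 0 := ⟨_, rfl⟩
  obtain ⟨w, hw⟩ : ∃ w : ZMod N → ZMod N → ℝ, w = fun u v =>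
    (if u = v then 1 else 0) + (if ∃ m ∈ Z, u + v = m + m then w₁ u v else 0) := ⟨_, rfl⟩
  have hw₁b : ∀ u v, 0 ≤ w₁ u v ∧ w₁ u v ≤ 1 := by
    intro u v
    rw [hw₁]
    simp only
    split_ifs <;> norm_num
  have hwb : ∀ u v, 0 ≤ w u v := by
    intro u v
    rw [hw]
    simp only
    apply add_nonneg
    · split_ifs <;> norm_num
    · split_ifs
      · exact (hw₁b u v).1
      · exact le_rfl
  -- every clique contains a special pair
  have hspecial : ∀ x : Fin k → ZMod N, (∏ i, f (x i)) * ∏ e ∈ EE k, dbl Z (x e.1 + x e.2) ≤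
      ∑ e ∈ (univ : Finset (Fin k × Fin k)).filter (fun e => e.1 ≠ e.2), (∏ i, f (x i)) * w (x e.1) (x e.2) := by
    intro x
    have hprod0 : 0 ≤ ∏ i, f (x i) := prod_nonneg fun i _ => (hf0 _).1
    have hnn : ∀ e ∈ (univ : Finset (Fin k × Fin k)).filter (fun e => e.1 ≠ e.2), 0 ≤ (∏ i, f (x i)) * w (x e.1) (x e.2) :=
      fun e _ => mul_nonneg hprod0 (hwb _ _)
    have hle1 : (∏ i, f (x i)) * ∏ e ∈ EE k, dbl Z (x e.1 + x e.2) ≤ ∏ i, f (x i) := by
      apply mul_le_of_le_one_right hprod0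
      exact prod_le_one (fun e _ => (dbl_bd Z _).1) (fun e _ => (dbl_bd Z _).2)
    by_cases hne : (∏ i, f (x i)) * ∏ e ∈ EE k, dbl Z (x e.1 + x e.2) = 0
    · rw [hne]
      exact sum_nonneg hnn
    · have hne1 : ∏ i, f (x i) ≠ 0 := fun h => hne (by rw [h, zero_mul])
      have hne2 : ∏ e ∈ EE k, dbl Z (x e.1 + x e.2) ≠ 0 := fun h => hne (by rw [h, mul_zero])
      have hfi : ∀ i, f (x i) ≠ 0 := fun i => (prod_ne_zero_iff.1 hne1) i (mem_univ _)
      have hdi : ∀ e ∈ EE k, dbl Z (x e.1 + x e.2) ≠ 0 := fun e he => (prod_ne_zero_iff.1 hne2) e he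
      have hmid : ∀ i j : Fin k, i ≠ j → ∃ m ∈ Z, x i + x j = m + m := by
        have h1 : ∀ i j : Fin k, i < j → ∃ m ∈ Z, x i + x j = m + m := by
          intro i j hij
          have h2 := hdi (i, j) (by unfold EE; rw [mem_filter]; exact ⟨mem_univ _, hij⟩)
          unfold dbl at h2
          by_contra hcon
          exact h2 (if_neg hcon)
        intro i j hij
        rcases lt_or_gt_of_ne hij with h | h
        · exact h1 i j h
        · rw [add_comm]; exact h1 j i h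
      have hex : ∃ e : Fin k × Fin k, e.1 ≠ e.2 ∧ 1 ≤ w (x e.1) (x e.2) := by
        by_cases hinj2 : Function.Injective x
        · -- distinct primes
          have hinj3 : Function.Injective (fun i => W * (x i).val + b) := by
            intro i j hij
            simp only at hij
            have h1 : (x i).val = (x j).val := Nat.eq_of_mul_eq_mul_left (by omega) (by omega : W * (x i).val = W * (x j).val)
            exact hinj2 (ZMod.val_injective N h1)
          obtain ⟨p, hp, q, hq, hpq, hRpq⟩ := hR (univ.image (fun i => W * (x i).val + b)) (by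
              intro p hp
              rw [mem_image] at hp
              obtain ⟨i, _, rfl⟩ := hp
              exact (hfne2 _ (hfi i)).2) (by
              rw [card_image_of_injective _ hinj3, card_univ, Fintype.card_fin])
          rw [mem_image] at hp hq
          obtain ⟨i, _, rfl⟩ := hp
          obtain ⟨j, _, rfl⟩ := hq
          have hij : i ≠ j := fun h => by rw [h] at hpq; exact lt_irrefl _ hpq
          refine ⟨(i, j), hij, ?_⟩
          rw [hw]
          simp only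
          have hone : w₁ (x i) (x j) = 1 := by
            rw [hw₁]
            exact if_pos ⟨hpq, hRpq⟩
          rw [if_pos (hmid i j hij), hone]
          split_ifs <;> norm_num
        · unfold Function.Injective at hinj2
          push Not at hinj2
          obtain ⟨i, j, hxij, hij⟩ := hinj2
          refine ⟨(i, j), hij, ?_⟩
          rw [hw]
          simp only
          rw [if_pos hxij]
          have : 0 ≤ (if ∃ m ∈ Z, x i + x j = m + m then w₁ (x i) (x j) else 0) := by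
            split_ifs
            · exact (hw₁b _ _).1
            · exact le_rfl
          linarith
      obtain ⟨e, he, hwe⟩ := hex
      refine hle1.trans ?_
      calc ∏ i, f (x i) ≤ (∏ i, f (x i)) * w (x e.1) (x e.2) := le_mul_of_one_le_right hprod0 hwe
        _ ≤ _ := single_le_sum hnn (mem_filter.2 ⟨mem_univ _, he⟩)
  -- the sum over the pairs
  obtain ⟨S₂, hS₂⟩ : ∃ S₂ : ℝ, S₂ = ∑ u, ∑ v, f u * f v * w u v := ⟨_, rfl⟩
  have hS₂0 : 0 ≤ S₂ := by
    rw [hS₂]
    exact sum_nonneg fun u _ => sum_nonneg fun v _ => mul_nonneg (mul_nonneg (hf0 u).1 (hf0 v).1) (hwb u v)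
  have hTT : (N : ℝ) ^ 2 * TT k (EE k) (fun _ => f) (fun _ => dbl Z) ≤ (k : ℝ) ^ 2 * ((2 * (N : ℝ)) ^ k * S₂) := by
    unfold TT
    calc (N : ℝ) ^ 2 * ∑ x : Fin k → ZMod N, (∏ i, f (x i)) * ∏ e ∈ EE k, dbl Z (x e.1 + x e.2) ≤
        (N : ℝ) ^ 2 * ∑ x : Fin k → ZMod N, ∑ e ∈ (univ : Finset (Fin k × Fin k)).filter (fun e => e.1 ≠ e.2), (∏ i, f (x i)) * w (x e.1) (x e.2) :=
          mul_le_mul_of_nonneg_left (sum_le_sum fun x _ => hspecial x) (by positivity)
      _ = ∑ e ∈ (univ : Finset (Fin k × Fin k)).filter (fun e => e.1 ≠ e.2), (N : ℝ) ^ 2 * ∑ x : Fin k → ZMod N, (∏ i, f (x i)) * w (x e.1) (x e.2) := by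
          rw [sum_comm, mul_sum]
      _ ≤ ∑ e ∈ (univ : Finset (Fin k × Fin k)).filter (fun e => e.1 ≠ e.2), (2 * (N : ℝ)) ^ k * S₂ := by
          apply sum_le_sum
          intro e he
          rw [hS₂]
          exact margsum k f (fun x => (hf0 x).1) hfs w hwb e.1 e.2 (mem_filter.1 he).2
      _ ≤ (k : ℝ) ^ 2 * ((2 * (N : ℝ)) ^ k * S₂) := by
          rw [sum_const, nsmul_eq_mul]
          apply mul_le_mul_of_nonneg_right _ (by positivity)
          have h1 : ((univ : Finset (Fin k × Fin k)).filter (fun e => e.1 ≠ e.2)).card ≤ k ^ 2 := by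
            refine (card_filter_le _ _).trans ?_
            rw [card_univ, Fintype.card_prod, Fintype.card_fin, sq]
          exact_mod_cast h1
  -- upper bound for `S₂`
  have hlogX : 1 ≤ Real.log X := by
    rw [Real.le_log_iff_exp_le hX0]
    have h1 := Real.exp_one_lt_d9
    have h2 : (3 : ℝ) ≤ X := by exact_mod_cast (by omega : 3 ≤ X)
    linarith
  have hcst1 : cst W X ≤ 2 * Real.log X := by
    unfold cst
    have h2 : (Nat.totient W : ℝ) / W ≤ 1 := by
      rw [div_le_one hW0]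
      exact_mod_cast Nat.totient_le W
    have h3 : Real.log (2 * X : ℕ) ≤ 2 * Real.log X := by
      have h4 : Real.log (2 * X : ℕ) ≤ Real.log ((X : ℝ) ^ 2) := by
        apply Real.log_le_log
        · exact_mod_cast (by omega : 0 < 2 * X)
        · have : 2 * X ≤ X ^ 2 := by nlinarith [(by omega : 2 ≤ X)]
          exact_mod_cast this
      rw [Real.log_pow] at h4
      push_cast at h4 ⊢
      exact h4
    have h5 : 0 ≤ Real.log (2 * X : ℕ) := Real.log_natCast_nonneg _
    calc (Nat.totient W : ℝ) / W * Real.log (2 * X : ℕ) ≤ 1 * Real.log (2 * X : ℕ) := mul_le_mul_of_nonneg_right h2 h5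
      _ ≤ 2 * Real.log X := by rw [one_mul]; exact h3
  have hcst2 : cst W X ^ 2 ≤ 4 * Real.log X ^ 2 := by
    calc cst W X ^ 2 ≤ (2 * Real.log X) ^ 2 := pow_le_pow_left₀ hcst hcst1 2
      _ = 4 * Real.log X ^ 2 := by ring
  have hBcard : (B.card : ℝ) ≤ L := by
    have h1 : B ⊆ range L := by
      intro m hm
      rw [mem_range]
      have := hSle m (hBS hm)
      omega
    have := card_le_card h1
    rw [card_range] at this
    exact_mod_cast this
  have hS₂up : S₂ ≤ 4 * N * Real.log X ^ 2 + L * (4 * (c₁ / (4 * K * W) * X)) := by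
    have h1 : S₂ = ∑ u, ∑ v, f u * f v * (if u = v then 1 else 0) +
        ∑ u, ∑ v, (if ∃ m ∈ Z, u + v = m + m then f u * f v * w₁ u v else 0) := by
      rw [hS₂, ← sum_add_distrib]
      apply sum_congr rfl
      intro u _
      rw [← sum_add_distrib]
      apply sum_congr rfl
      intro v _
      rw [hw]
      simp only
      split_ifs <;> ring
    have h2 : ∑ u, ∑ v, f u * f v * (if u = v then 1 else 0) ≤ 4 * N * Real.log X ^ 2 := by
      have h3 : ∀ u : ZMod N, ∑ v, f u * f v * (if u = v then 1 else 0) ≤ f u * cst W X := by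
        intro u
        have h4 : ∑ v, f u * f v * (if u = v then (1 : ℝ) else 0) = f u * f u := by
          have h5 : ∀ v, f u * f v * (if u = v then (1 : ℝ) else 0) = if u = v then f u * f v else 0 := by
            intro v; split_ifs <;> ring
          rw [sum_congr rfl fun v _ => h5 v, sum_ite_eq univ u, if_pos (mem_univ _)]
        rw [h4]
        exact mul_le_mul_of_nonneg_left (hf0 u).2 (hf0 u).1
      refine (sum_le_sum fun u _ => h3 u).trans ?_
      rw [← sum_mul]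
      calc (∑ u, f u) * cst W X ≤ (2 * N) * (2 * Real.log X) := mul_le_mul hfs hcst1 hcst (by positivity)
        _ = 4 * N * Real.log X := by ring
        _ ≤ 4 * N * Real.log X ^ 2 := by
            apply mul_le_mul_of_nonneg_left _ (by positivity)
            nlinarith
    have h3 : ∑ u, ∑ v, (if ∃ m ∈ Z, u + v = m + m then f u * f v * w₁ u v else 0) ≤ L * (4 * (c₁ / (4 * K * W) * X)) := by
      refine (pairsum Z (fun u v => f u * f v * w₁ u v) (fun u v => mul_nonneg (mul_nonneg (hf0 u).1 (hf0 v).1) (hw₁b u v).1)).trans ?_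
      rw [hZ, sum_image hinj]
      have h4 : ∀ μ ∈ B, ∑ u : ZMod N, f u * f ((μ : ZMod N) + (μ : ZMod N) - u) * w₁ u ((μ : ZMod N) + (μ : ZMod N) - u) ≤
          4 * (c₁ / (4 * K * W) * X) := by
        intro μ hμ
        obtain ⟨a1, a2⟩ := hS μ (hBS hμ)
        refine (mid_le R W b X L μ hW hL hN a1 f (cst W X) hcst hfne hf0 w₁ hw₁b (by
          intro u v huv
          rw [hw₁] at huv
          simp only at huv
          by_contra hcon
          exact huv (if_neg hcon))).trans ?_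
        calc cst W X ^ 2 * repsR R (W * μ + b) ≤ (4 * Real.log X ^ 2) * (c₁ / (4 * K * W) * X / Real.log X ^ 2) :=
              mul_le_mul hcst2 a2.le (Nat.cast_nonneg _) (by positivity)
          _ = _ := by field_simp
      refine (sum_le_sum h4).trans ?_
      rw [sum_const, nsmul_eq_mul]
      exact mul_le_mul_of_nonneg_right hBcard (by positivity)
    rw [h1]
    exact add_le_add h2 h3
  -- the contradiction
  have hlogN : 4 * N * Real.log X ^ 2 ≤ c₁ / (8 * K) * (N : ℝ) ^ 2 := by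
    have h1 := hY₁ X (by omega)
    have h2 : 4 * (X : ℝ) / W ≤ N := by
      have : 4 * (X : ℝ) / W = 2 * (2 * X / W) := by ring
      rw [this]; linarith
    calc 4 * N * Real.log X ^ 2 ≤ 4 * N * (c₁ / (8 * K * W) * X) := mul_le_mul_of_nonneg_left h1 (by positivity)
      _ = c₁ / (8 * K) * N * (4 * X / W) := by field_simp
      _ ≤ c₁ / (8 * K) * N * N := mul_le_mul_of_nonneg_left h2 (by positivity)
      _ = _ := by ring
  have hX2 : L * (4 * (c₁ / (4 * K * W) * X)) ≤ c₁ / (4 * K) * (N : ℝ) ^ 2 := by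
    calc L * (4 * (c₁ / (4 * K * W) * X)) = c₁ / (2 * K) * L * (2 * X / W) := by field_simp
      _ ≤ c₁ / (2 * K) * L * L := mul_le_mul_of_nonneg_left hL1 (by positivity)
      _ = c₁ / (8 * K) * (2 * L) ^ 2 := by field_simp; ring
      _ ≤ c₁ / (8 * K) * (N : ℝ) ^ 2 := mul_le_mul_of_nonneg_left (pow_le_pow_left₀ (by positivity) hLN 2) (by positivity)
      _ ≤ c₁ / (4 * K) * (N : ℝ) ^ 2 := by
          apply mul_le_mul_of_nonneg_right _ (by positivity)
          apply div_le_div_of_nonneg_left hc₁0.le (by positivity)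
          linarith
  have hfin1 : (N : ℝ) ^ 2 * (c₁ * (N : ℝ) ^ k) ≤ K * ((N : ℝ) ^ k * S₂) := by
    calc (N : ℝ) ^ 2 * (c₁ * (N : ℝ) ^ k) ≤ (N : ℝ) ^ 2 * TT k (EE k) (fun _ => f) (fun _ => dbl Z) :=
          mul_le_mul_of_nonneg_left hmain (by positivity)
      _ ≤ (k : ℝ) ^ 2 * ((2 * (N : ℝ)) ^ k * S₂) := hTT
      _ ≤ ((k : ℝ) ^ 2 + 1) * ((2 * (N : ℝ)) ^ k * S₂) := by
          apply mul_le_mul_of_nonneg_right _ (by positivity)
          linarith
      _ = _ := by rw [hK, mul_pow]; ring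
  have hfin2 : c₁ * (N : ℝ) ^ 2 ≤ K * S₂ := by
    have h1 : (N : ℝ) ^ k * (c₁ * (N : ℝ) ^ 2) ≤ (N : ℝ) ^ k * (K * S₂) := by
      calc (N : ℝ) ^ k * (c₁ * (N : ℝ) ^ 2) = (N : ℝ) ^ 2 * (c₁ * (N : ℝ) ^ k) := by ring
        _ ≤ _ := hfin1
        _ = _ := by ring
    exact le_of_mul_le_mul_left h1 (by positivity)
  have hfin3 : K * S₂ ≤ K * (c₁ / (8 * K) * (N : ℝ) ^ 2 + c₁ / (4 * K) * (N : ℝ) ^ 2) :=
    mul_le_mul_of_nonneg_left (hS₂up.trans (add_le_add hlogN hX2)) hK0.le
  have hfin4 : K * (c₁ / (8 * K) * (N : ℝ) ^ 2 + c₁ / (4 * K) * (N : ℝ) ^ 2) = 3 / 8 * (c₁ * (N : ℝ) ^ 2) := by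
    field_simp
    ring
  have hpos : 0 < c₁ * (N : ℝ) ^ 2 := by positivity
  linarith

end Pool.Agent.H563.RC
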