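import Mathlib
import Pool.Agent.H563.RG.Fin
import Pool.Agent.H563.RC.MainR

set_option autoImplicit false

/-! Representations of `2n` by edges of a graph on the primes, for rough `n`. -/

namespace Pool.Agent.H563.RC

open Finset
open Pool.Agent.H563.RG (rough mem_rough rough_coprime rough_lower)

theorem finalR (k : ℕ) (ε : ℝ) (hε : 0 < ε) :
    ∃ w₀ : ℕ, ∀ w : ℕ, w₀ ≤ w → ∃ δ : ℝ, 0 < δ ∧ ∃ X₀ : ℕ, ∀ X : ℕ, X₀ ≤ X → ∀ R : ℕ → ℕ → Prop,
      (∀ P : Finset ℕ, (∀ p ∈ P, p.Prime ∧ p ≤ 2 * X) → P.card = k → ∃ p ∈ P, ∃ q ∈ P, p < q ∧ R p q) →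
      (((rough w X).filter (fun n => (repsR R n : ℝ) < δ * X / Real.log X ^ 2)).card : ℝ) ≤ ε * (rough w X).card := by
  classical
  obtain ⟨ε', hε'⟩ : ∃ ε' : ℝ, ε' = min (ε / 2) 1 := ⟨_, rfl⟩
  have hε'0 : 0 < ε' := by rw [hε']; positivity
  have hε'1 : ε' ≤ 1 := by rw [hε']; exact min_le_right _ _
  have hε'2 : ε' ≤ ε / 2 := by rw [hε']; exact min_le_left _ _
  obtain ⟨w₀, hcl⟩ := classesR k ε' hε'0 hε'1
  refine ⟨w₀ + 2, fun w hw => ?_⟩
  obtain ⟨W, hW⟩ : ∃ W, W = primorial w := ⟨_, rfl⟩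
  have hWpos : 0 < W := by rw [hW]; exact primorial_pos w
  have hW0 : (0 : ℝ) < W := by exact_mod_cast hWpos
  obtain ⟨δ, hδ, X₀, hmain⟩ := hcl W hWpos (by
    intro p hp hpw
    rw [hW]; unfold primorial
    apply dvd_prod_of_mem
    rw [mem_filter, mem_range]
    exact ⟨by omega, hp⟩)
  refine ⟨δ, hδ, X₀ + W, fun X hX R hR => ?_⟩
  obtain ⟨T, hT⟩ : ∃ T : Finset ℕ, T = (rough w X).filter (fun n => (repsR R n : ℝ) < δ * X / Real.log X ^ 2) := ⟨_, rfl⟩
  rw [← hT]
  have h1 : T.card = ∑ b ∈ (range W).filter (fun b => Nat.Coprime W b), (T.filter (fun n => n % W = b)).card := by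
    apply card_eq_sum_card_fiberwise
    intro n hn
    rw [mem_coe, hT, mem_filter, mem_rough, rough_coprime, ← hW] at hn
    rw [mem_coe, mem_filter, mem_range]
    refine ⟨Nat.mod_lt _ hWpos, ?_⟩
    have h2 : Nat.gcd (n % W) W = Nat.gcd n W := by
      rw [← Nat.gcd_rec, Nat.gcd_comm]
    have h3 : Nat.Coprime (n % W) W := by
      unfold Nat.Coprime
      rw [h2]
      exact hn.1.2
    exact h3.symm
  have h2 : ∀ b ∈ (range W).filter (fun b => Nat.Coprime W b), ((T.filter (fun n => n % W = b)).card : ℝ) ≤ ε' * (X / W) := by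
    intro b hb
    rw [mem_filter, mem_range] at hb
    obtain ⟨S, hS⟩ : ∃ S : Finset ℕ, S = (T.filter (fun n => n % W = b)).image (fun n => n / W) := ⟨_, rfl⟩
    have hcard : S.card = (T.filter (fun n => n % W = b)).card := by
      rw [hS]
      apply card_image_of_injOn
      intro x hx y hy h
      rw [mem_coe, mem_filter] at hx hy
      simp only at h
      have e1 := Nat.div_add_mod x W
      have e2 := Nat.div_add_mod y W
      rw [hx.2, h] at e1
      rw [hy.2] at e2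
      omega
    rw [← hcard]
    apply hmain X (by omega) R hR b hb.1 hb.2.symm S
    intro m hm
    rw [hS, mem_image] at hm
    obtain ⟨n, hn, rfl⟩ := hm
    rw [mem_filter, hT, mem_filter, mem_rough] at hn
    have e1 := Nat.div_add_mod n W
    rw [hn.2] at e1
    rw [e1]
    exact ⟨hn.1.1.1.2, hn.1.2⟩
  have h3 : (T.card : ℝ) ≤ Nat.totient W * (ε' * (X / W)) := by
    rw [h1]
    push_cast
    refine (sum_le_sum h2).trans ?_
    rw [sum_const, nsmul_eq_mul]
    rfl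
  have h4 : ((Nat.totient W * (X / W) : ℕ) : ℝ) ≤ (rough w X).card := by
    have := rough_lower w X (by omega)
    rw [← hW] at this
    exact_mod_cast this
  have h5 : (X : ℝ) / W ≤ 2 * ((X / W : ℕ) : ℝ) := by
    have h6 : 1 ≤ X / W := (Nat.one_le_div_iff hWpos).2 (by omega)
    have h7 : (X : ℝ) < W * (((X / W : ℕ) : ℝ) + 1) := by
      have := Nat.lt_mul_div_succ X hWpos
      have h8 : ((X : ℕ) : ℝ) < ((W * (X / W + 1) : ℕ) : ℝ) := by exact_mod_cast this
      rw [Nat.cast_mul, Nat.cast_add, Nat.cast_one] at h8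
      exact h8
    have h9 : (1 : ℝ) ≤ ((X / W : ℕ) : ℝ) := by exact_mod_cast h6
    rw [div_le_iff₀ hW0]
    nlinarith
  have hφ : (0 : ℝ) ≤ Nat.totient W := Nat.cast_nonneg _
  calc (T.card : ℝ) ≤ Nat.totient W * (ε' * (X / W)) := h3
    _ ≤ Nat.totient W * ((ε / 2) * (2 * ((X / W : ℕ) : ℝ))) := by
        apply mul_le_mul_of_nonneg_left _ hφ
        apply mul_le_mul hε'2 h5 (by positivity) (by positivity)
    _ = ε * ((Nat.totient W * (X / W) : ℕ) : ℝ) := by push_cast; ring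
    _ ≤ ε * (rough w X).card := mul_le_mul_of_nonneg_left h4 hε.le

end Pool.Agent.H563.RC
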